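import Pool.Agent.H22.CG.Ring
import Pool.Agent.H98.CN.Fin
import Pool.Agent.H25.CG.Exp
import Pool.Agent.H25.CG.Dv
import Pool.Agent.H85.CH.Fa

/-!
# CH-ALL, chapter GROWTH, module G2: orders of homomorphisms

Over a domain of characteristic `p` a nonzero homomorphism of formal group laws is
`f = f₀ (x ^ (p ^ a))`, `f₀'(0) ≠ 0`; orders are multiplicative under composition.
Over a field, for height `n`: divisibility by `p ^ s` is `order ≥ p ^ (n s)`; finiteness of
`End Γ` modulo `x ^ r`.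
-/

open PowerSeries

namespace Pool.Agent.H22.CG

open Pool.Agent.H13.CA

section Domain

variable {R : Type*} [CommRing R] [IsDomain R]

/-- G2a: orders multiply, with the leading coefficient. -/
theorem order_comp {f g : R⟦X⟧} (hg : constantCoeff g = 0) {a b : ℕ} (hf : f.order = a)
    (hg' : g.order = b) :
    PowerSeries.order (PowerSeries.subst g f : R⟦X⟧) = (a * b : ℕ) ∧
      coeff (a * b) (PowerSeries.subst g f : R⟦X⟧) = coeff a f * coeff b g ^ a :=
  H85.CH.order_comp hg hf hg'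

/-- G2a: the formal sum of two series of different orders. -/
theorem order_pl (F : FormalGroup R) {f g : R⟦X⟧} (hf0 : constantCoeff f = 0)
    (hg0 : constantCoeff g = 0) {a : ℕ} (hf : f.order = a) (hg : (a : ℕ∞) < g.order) :
    PowerSeries.order (pl F (σ := Unit) f g : R⟦X⟧) = a :=
  H85.CH.order_pl F hf0 hg0 hf hg

/-- G2a: coefficients of a formal sum below twice the order. -/
theorem coeff_pl (F : FormalGroup R) {f g : R⟦X⟧} {a : ℕ} (ha : 1 ≤ a) (hf : X ^ a ∣ f)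
    (hg : X ^ a ∣ g) {i : ℕ} (hi : i < 2 * a) :
    coeff i (pl F (σ := Unit) f g : R⟦X⟧) = coeff i f + coeff i g :=
  H85.CH.coeff_pl F ha hf hg hi

/-- G2b: a homomorphism with zero linear coefficient is a series in `x ^ p`. -/
theorem hom_expand (p : ℕ) [Fact p.Prime] [CharP R p] {F G : FormalGroup R} {f : R⟦X⟧}
    (hf : IsHom F G f) (h0 : coeff 1 f = 0) :
    ∃ f₁ : R⟦X⟧, IsHom (F.map (frobenius R p)) G f₁ ∧ f = PowerSeries.subst (X ^ p : R⟦X⟧) f₁ :=
  H25.CG.hom_expand p hf h0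

/-- G2b: the order of a nonzero homomorphism is a power of `p`. -/
theorem hom_order (p : ℕ) [Fact p.Prime] [CharP R p] {F G : FormalGroup R} {f : R⟦X⟧}
    (hf : IsHom F G f) (h0 : f ≠ 0) :
    ∃ (a : ℕ) (f₁ : R⟦X⟧), f.order = (p ^ a : ℕ) ∧ constantCoeff f₁ = 0 ∧ coeff 1 f₁ ≠ 0 ∧
      f = PowerSeries.subst (X ^ p ^ a : R⟦X⟧) f₁ :=
  H25.CG.hom_order p hf h0

/-- G2b: a homomorphism divisible by `x ^ (p ^ a)` is a series in `x ^ (p ^ a)`. -/
theorem hom_expand_pow (p : ℕ) [Fact p.Prime] [CharP R p] {F G : FormalGroup R} {f : R⟦X⟧}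
    (hf : IsHom F G f) (a : ℕ) (h0 : ∀ i, i < p ^ a → coeff i f = 0) :
    ∃ f₁ : R⟦X⟧, constantCoeff f₁ = 0 ∧ IsHom (F.map ((frobenius R p) ^ a)) G f₁ ∧
      f = PowerSeries.subst (X ^ p ^ a : R⟦X⟧) f₁ :=
  H25.CG.hom_expand_pow p hf a h0

instance (F : FormalGroup R) [F.IsComm] : NoZeroDivisors (EndF F) :=
  H85.CH.noZeroDivisors F

end Domain

section Lin

variable {R : Type*} [CommRing R] (F : FormalGroup R) [F.IsComm]

/-- the linear coefficient is a ring homomorphism -/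
noncomputable def lin : EndF F →+* R where
  toFun f := coeff 1 f.s
  map_one' := H25.CG.coeff_one_one F
  map_mul' f g := H25.CG.coeff_one_mul F f g
  map_zero' := H25.CG.coeff_one_zero F
  map_add' f g := H25.CG.coeff_one_add F f g

theorem lin_apply (f : EndF F) : lin F f = coeff 1 f.s := rfl

/-- an endomorphism with unit linear coefficient is a unit -/
theorem isUnit_of_lin {f : EndF F} (h : IsUnit (lin F f)) : IsUnit f :=
  H25.CG.isUnit_of_coeff_one F h

end Lin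

section Field

variable {k : Type*} [Field k] (p : ℕ) [Fact p.Prime] [CharP k p] {Γ : FormalGroup k} [Γ.IsComm]
  {n : ℕ}

/-- G2c: divisibility by `p`. -/
theorem dvd_of_order (hn : 1 ≤ n) (hΓ : HasHeight p n Γ) (θ : EndF Γ) (s : ℕ)
    (h : (X : k⟦X⟧) ^ p ^ (n * s) ∣ θ.s) : ∃ η : EndF Γ, θ = (p : EndF Γ) ^ s * η :=
  H25.CG.dvd_of_order p hΓ θ s h

/-- G2c: `p ^ s η` has order at least `p ^ (n s)`. -/
theorem order_ppow (hn : 1 ≤ n) (hΓ : HasHeight p n Γ) (η : EndF Γ) (s : ℕ) :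
    (X : k⟦X⟧) ^ p ^ (n * s) ∣ ((p : EndF Γ) ^ s * η).s :=
  H25.CG.order_ppow p hΓ η s

/-- G2c: exact orders. -/
theorem order_ppow_eq (hn : 1 ≤ n) (hΓ : HasHeight p n Γ) (η : EndF Γ) (s b : ℕ)
    (h : η.s.order = (p ^ b : ℕ)) :
    ((p : EndF Γ) ^ s * η).s.order = (p ^ (n * s + b) : ℕ) :=
  H25.CG.order_ppow_eq p hΓ η s b h

/-- G2d: linear coefficients lie in the field with `p ^ n` elements. -/
theorem lin_pow (hn : 1 ≤ n) (hΓ : HasHeight p n Γ) (θ : EndF Γ) :
    lin Γ θ ^ p ^ n = lin Γ θ :=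
  H25.CG.lin_pow p hΓ θ

/-- G2d: `End Γ` is finite modulo `x ^ r`: there are finitely many endomorphisms `θ_j` such that
every endomorphism is `θ_j + (something divisible by x ^ r)`. -/
theorem finite_mod (hn : 1 ≤ n) (hΓ : HasHeight p n Γ) (r : ℕ) :
    (Set.range fun θ : EndF Γ => fun i : Fin r => coeff i.val θ.s).Finite := by
  have hp : p.Prime := Fact.out
  have hpm : IsHom Γ Γ (mulSer Γ p) := by
    have h := (p : EndF Γ).hom
    rwa [EndF.natCast_s] at h
  obtain ⟨g, hg0, -, hg⟩ := hom_expand_pow p hpm n hΓ.1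
  have hg1 : coeff 1 g ≠ 0 := by
    have h1 := hΓ.2.ne_zero
    rw [hg, PowerSeries.coeff_subst_X_pow (pow_ne_zero _ hp.ne_zero), if_pos dvd_rfl,
      Nat.div_self (pow_pos hp.pos n)] at h1
    exact h1
  refine (Pool.Agent.H98.CN.finite_comm p hn hg0 hg1 hg (Set.range fun θ : EndF Γ => θ.s)
    ?_ ?_ r).subset ?_
  · rintro _ ⟨θ, rfl⟩
    exact θ.hom.1
  · rintro _ ⟨θ, rfl⟩
    exact θ.hom.mulSer p
  · rintro _ ⟨θ, rfl⟩
    exact ⟨θ.s, ⟨θ, rfl⟩, rfl⟩

end Field

end Pool.Agent.H22.CG
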