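import Mathlib

/-!
# CH-ALL, chapter GROWTH, module G8: an identity in `ℤ[X]`
-/

open Polynomial

namespace Pool.Agent.H22.CG

private theorem pstep {R : Type*} [CommRing R] (p : ℕ) [hp : Fact p.Prime] {a : ℕ} (ha : 1 ≤ a)
    (ha2 : p = 2 → 2 ≤ a) (t : R) :
    ∃ t' : R, (1 + (p : R) ^ a * t) ^ p = 1 + (p : R) ^ (a + 1) * (t + (p : R) * t') := by
  have hp2 : 2 ≤ p := hp.out.two_le
  have key : ∀ j ∈ Finset.range (p + 1), 2 ≤ j → ∃ c : R,
      ((p : R) ^ a * t) ^ j * (p.choose j : R) = (p : R) ^ (a + 2) * c := by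
    intro j hj hj2
    rw [Finset.mem_range] at hj
    by_cases hjp : j = p
    · have h1 : a + 2 ≤ a * p := by
        by_cases h2 : p = 2
        · have := ha2 h2
          rw [h2]
          omega
        · have h3 : 3 ≤ p := by omega
          nlinarith
      refine ⟨(p : R) ^ (a * p - (a + 2)) * t ^ p, ?_⟩
      rw [hjp, Nat.choose_self, Nat.cast_one, mul_one, mul_pow, ← pow_mul, ← mul_assoc, ← pow_add,
        Nat.add_sub_cancel' h1]
    · have h1 : p ∣ p.choose j := hp.out.dvd_choose_self (by omega) (by omega)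
      obtain ⟨c, hc⟩ := h1
      have h2 : a + 2 ≤ a * j + 1 := by nlinarith
      refine ⟨(p : R) ^ (a * j + 1 - (a + 2)) * t ^ j * (c : R), ?_⟩
      have h3 : (p : R) ^ (a + 2) * ((p : R) ^ (a * j + 1 - (a + 2)) * t ^ j * (c : R)) =
          (p : R) ^ (a * j + 1) * t ^ j * (c : R) := by
        rw [← mul_assoc, ← mul_assoc, ← pow_add, Nat.add_sub_cancel' h2]
      rw [h3, hc, Nat.cast_mul, mul_pow, ← pow_mul]
      ring
  rw [add_comm (1 : R), add_pow]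
  have h0 : ∀ j : ℕ, ∃ c : R, j ∈ Finset.range (p + 1) → 2 ≤ j →
      ((p : R) ^ a * t) ^ j * (p.choose j : R) = (p : R) ^ (a + 2) * c := by
    intro j
    by_cases h : j ∈ Finset.range (p + 1) ∧ 2 ≤ j
    · obtain ⟨c, hc⟩ := key j h.1 h.2
      exact ⟨c, fun _ _ => hc⟩
    · exact ⟨0, fun h1 h2 => absurd ⟨h1, h2⟩ h⟩
  choose c hc using h0
  refine ⟨∑ j ∈ (Finset.range (p + 1)).filter (fun j => 2 ≤ j), c j, ?_⟩
  rw [← Finset.sum_filter_add_sum_filter_not (Finset.range (p + 1)) (fun j => 2 ≤ j)]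
  have h1 : ∑ j ∈ (Finset.range (p + 1)).filter (fun j => 2 ≤ j),
      ((p : R) ^ a * t) ^ j * 1 ^ (p - j) * (p.choose j : R) =
      (p : R) ^ (a + 2) * ∑ j ∈ (Finset.range (p + 1)).filter (fun j => 2 ≤ j), c j := by
    rw [Finset.mul_sum]
    refine Finset.sum_congr rfl fun j hj => ?_
    rw [Finset.mem_filter] at hj
    rw [one_pow, mul_one]
    exact hc j hj.1 hj.2
  have h2 : (Finset.range (p + 1)).filter (fun j => ¬ 2 ≤ j) = {0, 1} := by
    ext j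
    rw [Finset.mem_filter, Finset.mem_range, Finset.mem_insert, Finset.mem_singleton]
    omega
  rw [h1, h2, Finset.sum_pair (by norm_num)]
  simp only [pow_zero, one_pow, Nat.choose_zero_right, Nat.choose_one_right, Nat.cast_one, pow_one]
  ring

private theorem ppow {R : Type*} [CommRing R] (p : ℕ) [Fact p.Prime] {a : ℕ} (ha : 1 ≤ a)
    (ha2 : p = 2 → 2 ≤ a) (t : R) (n : ℕ) :
    ∃ t' : R, (1 + (p : R) ^ a * t) ^ p ^ n = 1 + (p : R) ^ (a + n) * (t + (p : R) * t') := by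
  induction n with
  | zero => exact ⟨0, by rw [pow_zero, pow_one, add_zero, mul_zero, add_zero]⟩
  | succ n ih =>
    obtain ⟨t', ht⟩ := ih
    obtain ⟨s, hs⟩ := pstep p (a := a + n) (by omega) (fun h => (ha2 h).trans (by omega))
      (t + (p : R) * t')
    refine ⟨t' + s, ?_⟩
    rw [pow_succ, pow_mul, ht, hs]
    ring

private theorem npow {R : Type*} [CommRing R] (p : ℕ) {b : ℕ} (hb : 1 ≤ b) (s : R) (N : ℕ) :
    ∃ s' : R, (1 + (p : R) ^ b * s) ^ N = 1 + (p : R) ^ b * ((N : R) * s + (p : R) * s') := by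
  obtain ⟨b', rfl⟩ : ∃ b', b = b' + 1 := ⟨b - 1, by omega⟩
  induction N with
  | zero => exact ⟨0, by rw [pow_zero, Nat.cast_zero]; ring⟩
  | succ N ih =>
    obtain ⟨s', hs⟩ := ih
    refine ⟨s' + (p : R) ^ b' * (((N : R) * s + (p : R) * s') * s), ?_⟩
    rw [pow_succ, hs, Nat.cast_add, Nat.cast_one]
    ring

private theorem nprod {R : Type*} [CommRing R] (p : ℕ) {b : ℕ} (hb : 1 ≤ b) {ι : Type*}
    (S : Finset ι) (s : ι → R) :
    ∃ s' : R, ∏ i ∈ S, (1 + (p : R) ^ b * s i) =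
      1 + (p : R) ^ b * (∑ i ∈ S, s i + (p : R) * s') := by
  classical
  obtain ⟨b', rfl⟩ : ∃ b', b = b' + 1 := ⟨b - 1, by omega⟩
  induction S using Finset.induction_on with
  | empty => exact ⟨0, by rw [Finset.prod_empty, Finset.sum_empty]; ring⟩
  | insert i S hi ih =>
    obtain ⟨s', hs⟩ := ih
    refine ⟨s' + (p : R) ^ b' * ((∑ i ∈ S, s i + (p : R) * s') * s i), ?_⟩
    rw [Finset.prod_insert hi, Finset.sum_insert hi, hs]
    ring

/-- `∏ (1 + p ^ a X ^ (i + 1)) ^ (p ^ v N' p ^ m y_i) = 1 + p ^ (a + v + m) G`,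
`G ≡ N' ∑ y_i X ^ (i + 1) mod p`. -/
theorem alg (p : ℕ) [Fact p.Prime] {a v N' : ℕ} (ha : 1 ≤ a) (ha2 : p = 2 → 2 ≤ a) {r : ℕ}
    (y : Fin r → ℕ) (m : ℕ) :
    ∃ G G' : ℤ[X], ∏ i, (1 + (p : ℤ[X]) ^ a * X ^ (i.val + 1)) ^ (p ^ v * N' * (p ^ m * y i)) =
        1 + (p : ℤ[X]) ^ (a + v + m) * G ∧
      G = (N' : ℤ[X]) * ∑ i, (y i : ℤ[X]) * X ^ (i.val + 1) + (p : ℤ[X]) * G' := by
  have h1 : ∀ i : Fin r, ∃ s : ℤ[X],
      (1 + (p : ℤ[X]) ^ a * X ^ (i.val + 1)) ^ (p ^ v * N' * (p ^ m * y i)) =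
        1 + (p : ℤ[X]) ^ (a + v + m) * ((N' : ℤ[X]) * ((y i : ℤ[X]) * X ^ (i.val + 1)) +
          (p : ℤ[X]) * s) := by
    intro i
    obtain ⟨t, ht⟩ := ppow p ha ha2 ((X : ℤ[X]) ^ (i.val + 1)) (v + m)
    obtain ⟨s, hs⟩ := npow p (b := a + v + m) (by omega) ((X : ℤ[X]) ^ (i.val + 1) + (p : ℤ[X]) * t)
      (N' * y i)
    refine ⟨((N' * y i : ℕ) : ℤ[X]) * t + s, ?_⟩
    have h2 : p ^ v * N' * (p ^ m * y i) = p ^ (v + m) * (N' * y i) := by
      rw [pow_add]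
      ring
    rw [h2, pow_mul, ht, ← add_assoc a v m, hs, Nat.cast_mul]
    ring
  choose s hs using h1
  obtain ⟨s', hs'⟩ := nprod p (b := a + v + m) (by omega) Finset.univ
    (fun i : Fin r => (N' : ℤ[X]) * ((y i : ℤ[X]) * X ^ (i.val + 1)) + (p : ℤ[X]) * s i)
  refine ⟨(N' : ℤ[X]) * ∑ i, (y i : ℤ[X]) * X ^ (i.val + 1) + (p : ℤ[X]) * (∑ i, s i + s'),
    ∑ i, s i + s', ?_, rfl⟩
  rw [Finset.prod_congr rfl (fun i _ => hs i), hs', Finset.sum_add_distrib, ← Finset.mul_sum,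
    ← Finset.mul_sum]
  ring

end Pool.Agent.H22.CG
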