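import Pool.Agent.H22.CG.Gro
import Pool.Agent.H22.CG.Alg
import Pool.Agent.H13.CA.LAZ
import Pool.Agent.H98.CN.Zeta
import Pool.Agent.H2.CC.Omg

/-!
# CH-ALL, chapter GROWTH: (STAR), the growth theorem for `n - 1` commuting automorphisms
-/

open PowerSeries

namespace Pool.Agent.H22.CG

open Pool.Agent.H13.CA

section Big

variable {k : Type*} [Field k] [IsAlgClosed k] (p : ℕ) [Fact p.Prime] [CharP k p]
  {Γ : FormalGroup k} [Γ.IsComm] {n : ℕ}

/-- BIG1: endomorphisms with prescribed linear coefficient (from `lazard_iso`). -/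
theorem exists_omega (hn : 1 ≤ n) (hΓ : HasHeight p n Γ) {ζ : k} (hζ : ζ ^ p ^ n = ζ) :
    ∃ ω : EndF Γ, lin Γ ω = ζ :=
  Pool.Agent.H2.CC.omega_main p hn hΓ hζ

/-- BIG2: an endomorphism of order `p` (from `lazard_iso` for the Frobenius twist). -/
theorem exists_P (hn : 1 ≤ n) (hΓ : HasHeight p n Γ) : ∃ P : EndF Γ, P.s.order = (p : ℕ) :=
  Pool.Agent.H2.CC.P_main p hn hΓ

/-- BIG3: a generator of the field with `p ^ n` elements: `∑_(i < n) c_i ζ ^ i` is nonzero for
`c_i` integers, not all divisible by `p`. -/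
theorem exists_zeta (hn : 1 ≤ n) : ∃ ζ : k, ζ ^ p ^ n = ζ ∧ ∀ c : Fin n → ℤ,
    (∑ i, (c i : k) * ζ ^ i.val = 0) → ∀ i, (p : ℤ) ∣ c i :=
  Pool.Agent.H98.CN.exists_zeta p hn

end Big

variable {k : Type*} [Field k] [IsAlgClosed k] (p : ℕ) [Fact p.Prime] [CharP k p]
  (F : FormalGroup k⟦X⟧) [F.IsComm] {h n : ℕ}

/-- (STAR). `F` over `k⟦X⟧` of generic height `h`, special height `n > h`; every automorphism `θ`
of the special fibre has `θ ^ N` liftable.  Then there are `ω` and `a` such that the automorphisms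
`σ_i = 1 + p ^ a ω ^ (i + 1)`, `i < n - 1`, have growth at most `C p ^ (h m)`. -/
theorem star (hh : 1 ≤ h) (hn : h < n)
    (hlow : ∀ i, i < p ^ h → coeff i (mulSer F p) = 0)
    (hv : coeff (p ^ h) (mulSer F p) ≠ 0) (hsp : HasHeight p n (spc F)) {N : ℕ} (hN : 1 ≤ N)
    (amp : ∀ θ : EndF (spc F), IsUnit θ → ∃ (φ : k⟦X⟧ ≃ₐ[k] k⟦X⟧) (g : PowerSeries k⟦X⟧),
      IsHom F (F.map (φ : k⟦X⟧ →+* k⟦X⟧)) g ∧ rd g = (θ ^ N).s) :
    ∃ (ω : EndF (spc F)) (a : ℕ), 1 ≤ a ∧
      (∀ i : Fin (n - 1), IsUnit (1 + (p : EndF (spc F)) ^ a * ω ^ (i.val + 1))) ∧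
      ∃ C, ∀ (x : Fin (n - 1) → ℕ) (m : ℕ), (¬ ∀ i, p ^ (m + 1) ∣ x i) →
        ∀ (φ : k⟦X⟧ ≃ₐ[k] k⟦X⟧) (f : PowerSeries k⟦X⟧),
          IsHom F (F.map (φ : k⟦X⟧ →+* k⟦X⟧)) f →
          rd f = (Polynomial.aeval ω (∏ i : Fin (n - 1), (1 + (p : Polynomial ℤ) ^ a *
            Polynomial.X ^ (i.val + 1)) ^ (N * x i))).s →
          ¬ (X : k⟦X⟧) ^ (C * p ^ (h * m) + 1) ∣ φ X - X := by
  have hn1 : 1 ≤ n := hh.trans hn.le
  have hp := Fact.out (p := p.Prime)
  obtain ⟨v, N', hN', hNe⟩ := Nat.exists_eq_pow_mul_and_not_dvd (by omega : N ≠ 0) p hp.ne_one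
  obtain ⟨P0, hP0⟩ := exists_P p hn1 hsp
  obtain ⟨ζ, hζ, hζ'⟩ := exists_zeta (k := k) p hn1
  obtain ⟨ω, hω⟩ := exists_omega p hn1 hsp hζ
  have hlinp : lin (spc F) (p : EndF (spc F)) = 0 := by
    rw [map_natCast, CharP.cast_eq_zero]
  have hunit : ∀ Z : EndF (spc F), IsUnit (1 + (p : EndF (spc F)) ^ 2 * Z) := by
    intro Z
    apply isUnit_of_lin
    rw [map_add, map_mul, map_pow, hlinp]
    simp
  -- the conjugating element
  obtain ⟨G, G', hG, hG'⟩ := alg p (a := 2) (v := v) (N' := N') (by norm_num) (fun _ => le_rfl)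
    (fun _ : Fin 1 => 1) 0
  obtain ⟨φ, g, hg, hg'⟩ := amp (1 + (p : EndF (spc F)) ^ 2 * P0) (hunit P0)
  have hG1 := congrArg (Polynomial.aeval P0) hG
  simp only [Finset.univ_unique, Fin.default_eq_zero, Fin.isValue, Fin.val_zero, zero_add,
    pow_one, pow_zero, mul_one, Finset.prod_singleton, map_pow, map_add, map_one, map_mul,
    map_natCast, Polynomial.aeval_X, add_zero] at hG1
  have hG2 := congrArg (Polynomial.aeval P0) hG'
  simp only [Finset.univ_unique, Fin.default_eq_zero, Fin.isValue, Fin.val_zero, zero_add,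
    pow_one, Finset.sum_singleton, map_add, map_mul, Nat.cast_one, one_mul,
    map_natCast, Polynomial.aeval_X] at hG2
  have hPo : (Polynomial.aeval P0 G).s.order = (p : ℕ) := by
    rw [hG2, EndF.add_s]
    apply order_pl
    · exact (_ : EndF (spc F)).cc
    · exact (_ : EndF (spc F)).cc
    · have h1 : ((N' : ℕ) : EndF (spc F)).s.order = ((1 : ℕ) : ℕ∞) := by
        rw [PowerSeries.order_eq_nat]
        refine ⟨?_, ?_⟩
        · have : coeff 1 ((N' : ℕ) : EndF (spc F)).s = lin (spc F) ((N' : ℕ) : EndF (spc F)) := rfl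
          rw [this, map_natCast, Ne, CharP.cast_eq_zero_iff k p]
          exact hN'
        · intro i hi
          obtain rfl : i = 0 := by omega
          rw [PowerSeries.coeff_zero_eq_constantCoeff_apply]
          exact EndF.cc _
      have h2 := (order_comp (EndF.cc P0) h1 hP0).1
      rw [EndF.mul_s, h2, one_mul]
    · have h1 := order_ppow p hn1 hsp (Polynomial.aeval P0 G') 1
      rw [pow_one, mul_one] at h1
      have h2 : ((p ^ n : ℕ) : ℕ∞) ≤
          ((p : EndF (spc F)) * Polynomial.aeval P0 G').s.order :=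
        PowerSeries.nat_le_order _ _ (PowerSeries.X_pow_dvd_iff.1 h1)
      refine lt_of_lt_of_le ?_ h2
      have h3 : p < p ^ n := by
        calc p = p ^ 1 := (pow_one p).symm
          _ < p ^ n := Nat.pow_lt_pow_right hp.one_lt (by omega)
      exact_mod_cast h3
  have hτ : rd g = (1 + (p : EndF (spc F)) ^ (2 + v) * Polynomial.aeval P0 G).s := by
    rw [hg', ← hG1, hNe]
  have hu : IsUnit (1 + (p : EndF (spc F)) ^ (2 + v) * Polynomial.aeval P0 G) := by
    rw [← hG1]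
    exact (hunit P0).pow _
  obtain ⟨C, hC⟩ := growth p F hh hn hlow hv hsp hg hPo hτ hu
  refine ⟨ω, 2, by norm_num, fun i => hunit _, C * (p ^ h) ^ (2 + v), ?_⟩
  intro x m hxm φ' f hf hrd hdvd
  -- the exact power of `p` dividing all `x i`
  obtain ⟨m', hm', y, hy, hy'⟩ : ∃ m', m' ≤ m ∧ ∃ y : Fin (n - 1) → ℕ, (∀ i, x i = p ^ m' * y i) ∧
      ¬ ∀ i, p ∣ y i := by
    classical
    have hex : ∃ l, ¬ ∀ i, p ^ (l + 1) ∣ x i := ⟨m, hxm⟩
    have hmin : ∀ i, p ^ Nat.find hex ∣ x i := by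
      intro i
      by_cases h0 : Nat.find hex = 0
      · rw [h0, pow_zero]; exact one_dvd _
      · have := Nat.find_min hex (m := Nat.find hex - 1) (by omega)
        rw [not_not] at this
        have h1 := this i
        rwa [Nat.sub_add_cancel (by omega)] at h1
    refine ⟨Nat.find hex, Nat.find_min' hex hxm, fun i => x i / p ^ Nat.find hex,
      fun i => (Nat.mul_div_cancel' (hmin i)).symm, fun h => Nat.find_spec hex fun i => ?_⟩
    obtain ⟨c, hc⟩ := h i
    refine ⟨c, ?_⟩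
    have hc' : x i / p ^ Nat.find hex = p * c := hc
    rw [← Nat.mul_div_cancel' (hmin i), hc']
    ring
  obtain ⟨G1, G2, hG3, hG4⟩ := alg p (a := 2) (v := v) (N' := N') (by norm_num) (fun _ => le_rfl)
    y m'
  have hprod : (∏ i : Fin (n - 1), (1 + (p : Polynomial ℤ) ^ 2 *
      Polynomial.X ^ (i.val + 1)) ^ (N * x i)) = 1 + (p : Polynomial ℤ) ^ (2 + v + m') * G1 := by
    rw [← hG3]
    refine Finset.prod_congr rfl fun i _ => ?_
    rw [hy i, hNe]
  rw [hprod] at hrd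
  have h5 := mem_EM_of_lift F hf hrd hdvd
  have h6 : Polynomial.aeval ω (1 + (p : Polynomial ℤ) ^ (2 + v + m') * G1) =
      1 + (p : EndF (spc F)) ^ (2 + v + m') * Polynomial.aeval ω G1 := by
    rw [map_add, map_one, map_mul, map_pow, map_natCast]
  rw [h6] at h5
  have h7 : (p : EndF (spc F)) ^ (2 + v + m') * Polynomial.aeval ω G1 ∈
      EM F (C * (p ^ h) ^ (2 + v) * p ^ (h * m) + 1) := by
    have := Subring.sub_mem _ h5 (Subring.one_mem _)
    rwa [add_sub_cancel_left] at this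
  have h8 : lin (spc F) (Polynomial.aeval ω G1) ^ p ≠ lin (spc F) (Polynomial.aeval ω G1) := by
    have e1 : lin (spc F) (Polynomial.aeval ω G1) =
        ∑ i : Fin (n - 1), ((N' * y i : ℕ) : k) * ζ ^ (i.val + 1) := by
      rw [hG4, map_add, map_add, map_mul, map_mul, map_mul, map_mul, map_natCast, map_natCast,
        map_natCast, map_natCast, CharP.cast_eq_zero k p, zero_mul, add_zero, map_sum, map_sum,
        Finset.mul_sum]
      refine Finset.sum_congr rfl fun i _ => ?_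
      rw [map_mul, map_mul, map_natCast, map_natCast, map_pow, map_pow, Polynomial.aeval_X, hω]
      push_cast
      ring
    intro hcon
    rw [← Subfield.mem_bot_iff_pow_eq_self k p, mem_bot_iff_intCast p k] at hcon
    obtain ⟨z, hz⟩ := hcon
    rw [e1] at hz
    obtain ⟨n', rfl⟩ : ∃ n', n = n' + 1 := ⟨n - 1, by omega⟩
    have h9 := hζ' (Fin.cons (-z) fun i : Fin n' => ((N' * y i : ℕ) : ℤ)) (by
      rw [Fin.sum_univ_succ]
      simp only [Fin.cons_zero, Fin.val_zero, pow_zero, mul_one, Fin.cons_succ, Fin.val_succ,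
        Int.cast_neg, Int.cast_natCast]
      rw [neg_add_eq_zero]
      exact hz)
    apply hy'
    intro i
    have h10 := h9 i.succ
    rw [Fin.cons_succ, Int.natCast_dvd_natCast] at h10
    exact (hp.dvd_mul.1 h10).resolve_left hN'
  refine hC (2 + v + m') _ h8 (EM_anti ?_ h7)
  have h11 : C * (p ^ h) ^ (2 + v + m') = C * (p ^ h) ^ (2 + v) * p ^ (h * m') := by
    rw [pow_add, ← mul_assoc, ← pow_mul p h m']
  rw [h11]
  exact Nat.succ_le_succ (Nat.mul_le_mul_left _ (Nat.pow_le_pow_right hp.pos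
    (Nat.mul_le_mul_left _ hm')))

end Pool.Agent.H22.CG
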