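import Pool.Agent.H22.CG.Ring

/-!
# CH-ALL, chapter GROWTH, module G1b: homomorphisms modulo `t ^ M`

`A = k⟦X⟧` (the variable of `A` is `t`), `F` a commutative formal group law over `A`, `spc F` its
special fibre over `k`.  `Apx F M f`: the series `f` over `A` is an endomorphism of `F` modulo
`t ^ M`.  `EM F M`: the subring of `End (spc F)` of all endomorphisms which lift modulo `t ^ M`.
-/

open PowerSeries

namespace Pool.Agent.H22.CG

open Pool.Agent.H13.CA

variable {k : Type*} [Field k]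

/-- the special fibre -/
noncomputable def spc (F : FormalGroup k⟦X⟧) : FormalGroup k := F.map (constantCoeff (R := k))

instance (F : FormalGroup k⟦X⟧) [F.IsComm] : (spc F).IsComm := by
  unfold spc; infer_instance

/-- reduction of a series modulo `t` -/
noncomputable def rd (f : PowerSeries k⟦X⟧) : k⟦X⟧ := PowerSeries.map (constantCoeff (R := k)) f

/-- `f (F (x, y)) - F (f x, f y)` -/
noncomputable def dft (F : FormalGroup k⟦X⟧) (f : PowerSeries k⟦X⟧) :
    MvPowerSeries (Fin 2) k⟦X⟧ :=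
  PowerSeries.subst F.toPowerSeries f -
    pl F (PowerSeries.subst (MvPowerSeries.X 0 : MvPowerSeries (Fin 2) k⟦X⟧) f)
      (PowerSeries.subst (MvPowerSeries.X 1 : MvPowerSeries (Fin 2) k⟦X⟧) f)

/-- `f` is an endomorphism of `F` modulo `t ^ M` -/
def Apx (F : FormalGroup k⟦X⟧) (M : ℕ) (f : PowerSeries k⟦X⟧) : Prop :=
  constantCoeff f = 0 ∧ ∀ d, (X : k⟦X⟧) ^ M ∣ MvPowerSeries.coeff d (dft F f)

/-- base change of the defect -/
theorem map_dft (F : FormalGroup k⟦X⟧) {S : Type*} [CommRing S] (φ : k⟦X⟧ →+* S)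
    {f : PowerSeries k⟦X⟧} (h0 : constantCoeff f = 0) :
    MvPowerSeries.map φ (dft F f) =
      PowerSeries.subst (F.map φ).toPowerSeries (PowerSeries.map φ f) -
        pl (F.map φ) (PowerSeries.subst (MvPowerSeries.X 0 : MvPowerSeries (Fin 2) S)
          (PowerSeries.map φ f)) (PowerSeries.subst (MvPowerSeries.X 1 : MvPowerSeries (Fin 2) S)
          (PowerSeries.map φ f)) := by
  have x0 : PowerSeries.HasSubst (MvPowerSeries.X 0 : MvPowerSeries (Fin 2) k⟦X⟧) :=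
    PowerSeries.HasSubst.X 0
  have x1 : PowerSeries.HasSubst (MvPowerSeries.X 1 : MvPowerSeries (Fin 2) k⟦X⟧) :=
    PowerSeries.HasSubst.X 1
  rw [dft, map_sub, map_pl F (hs_subst x0 h0) (hs_subst x1 h0), PowerSeries.map_subst (hs_F F),
    PowerSeries.map_subst x0, PowerSeries.map_subst x1, MvPowerSeries.map_X, MvPowerSeries.map_X]
  rfl

variable (F : FormalGroup k⟦X⟧)

/-- `Apx` in terms of the quotient ring `k⟦t⟧ / t ^ M` -/
theorem apx_iff (M : ℕ) (f : PowerSeries k⟦X⟧) (h0 : constantCoeff f = 0) :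
    Apx F M f ↔ IsHom (F.map (Ideal.Quotient.mk (Ideal.span {(X : k⟦X⟧) ^ M})))
      (F.map (Ideal.Quotient.mk (Ideal.span {(X : k⟦X⟧) ^ M})))
      (PowerSeries.map (Ideal.Quotient.mk (Ideal.span {(X : k⟦X⟧) ^ M})) f) := by
  set φ := Ideal.Quotient.mk (Ideal.span {(X : k⟦X⟧) ^ M}) with hφ
  have h1 : Apx F M f ↔ MvPowerSeries.map φ (dft F f) = 0 := by
    constructor
    · rintro ⟨-, h⟩
      ext d
      rw [MvPowerSeries.coeff_map, map_zero, hφ, Ideal.Quotient.eq_zero_iff_mem,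
        Ideal.mem_span_singleton]
      exact h d
    · intro h
      refine ⟨h0, fun d => ?_⟩
      have h2 := congrArg (MvPowerSeries.coeff d) h
      rwa [MvPowerSeries.coeff_map, map_zero, hφ, Ideal.Quotient.eq_zero_iff_mem,
        Ideal.mem_span_singleton] at h2
  rw [h1, map_dft F φ h0, sub_eq_zero]
  exact ⟨fun h => ⟨map_hs h0 φ, h⟩, fun h => h.2⟩

theorem Apx.of_hom {f : PowerSeries k⟦X⟧} (h : IsHom F F f) (M : ℕ) : Apx F M f :=
  (apx_iff F M f h.1).2 (h.map _)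

theorem Apx.mono {M N : ℕ} (h : M ≤ N) {f : PowerSeries k⟦X⟧} (hf : Apx F N f) : Apx F M f :=
  ⟨hf.1, fun d => (pow_dvd_pow _ h).trans (hf.2 d)⟩

variable {F}

variable [F.IsComm]

/-- sums of approximate endomorphisms -/
theorem Apx.add {M : ℕ} {f g : PowerSeries k⟦X⟧} (hf : Apx F M f) (hg : Apx F M g) :
    Apx F M (pl F (σ := Unit) f g) := by
  rw [apx_iff F M _ (pl_cc F hf.1 hg.1)]
  have := isHom_add _ ((apx_iff F M f hf.1).1 hf) ((apx_iff F M g hg.1).1 hg)
  have e : PowerSeries.map (Ideal.Quotient.mk (Ideal.span {(X : k⟦X⟧) ^ M}))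
      (pl F (σ := Unit) f g) = _ := map_pl F (σ := Unit) (hs_zero hf.1) (hs_zero hg.1)
    (Ideal.Quotient.mk (Ideal.span {(X : k⟦X⟧) ^ M}))
  rw [e]
  exact this

omit [F.IsComm] in
/-- composites of approximate endomorphisms -/
theorem Apx.comp {M : ℕ} {f g : PowerSeries k⟦X⟧} (hf : Apx F M f) (hg : Apx F M g) :
    Apx F M (PowerSeries.subst g f) := by
  rw [apx_iff F M _ (cc_subst hg.1 hf.1), map_subst' (hs_zero hg.1)]
  exact ((apx_iff F M g hg.1).1 hg).comp ((apx_iff F M f hf.1).1 hf)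

theorem Apx.neg {M : ℕ} {f : PowerSeries k⟦X⟧} (hf : Apx F M f) :
    Apx F M (PowerSeries.subst f (negS F)) :=
  (Apx.of_hom F (isHom_negS F) M).comp hf

theorem rd_pl {f g : PowerSeries k⟦X⟧} (hf : constantCoeff f = 0) (hg : constantCoeff g = 0) :
    rd (pl F (σ := Unit) f g) = pl (spc F) (σ := Unit) (rd f) (rd g) :=
  map_pl F (σ := Unit) (hs_zero hf) (hs_zero hg) _

omit [F.IsComm] in
theorem rd_subst {f g : PowerSeries k⟦X⟧} (hg : constantCoeff g = 0) :
    rd (PowerSeries.subst g f) = PowerSeries.subst (rd g) (rd f) :=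
  map_subst' (hs_zero hg) _ f

theorem rd_negS : rd (negS F) = negS (spc F) := by
  have h1 : pl (spc F) (σ := Unit) (X : k⟦X⟧) (rd (negS F)) = 0 := by
    have h := congrArg rd (pl_negS F)
    rw [rd_pl (by simp) (negS_cc F)] at h
    rw [show rd (X : PowerSeries k⟦X⟧) = (X : k⟦X⟧) from PowerSeries.map_X _] at h
    rw [h]
    exact map_zero _
  exact eq_of_pl (spc F) (σ := Unit) (hs_zero (f := (X : k⟦X⟧)) (by simp))
    (hs_zero (map_hs (negS_cc F) _)) (hs_zero (negS_cc _)) h1 (pl_negS (spc F))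

variable (F)

/-- the endomorphisms of the special fibre which lift modulo `t ^ M` -/
noncomputable def EM (M : ℕ) : Subring (EndF (spc F)) where
  carrier := {θ | ∃ f, Apx F M f ∧ rd f = θ.s}
  mul_mem' := by
    rintro θ η ⟨f, hf, hf'⟩ ⟨g, hg, hg'⟩
    exact ⟨_, hf.comp hg, by rw [rd_subst hg.1, hf', hg']; rfl⟩
  one_mem' := ⟨X, Apx.of_hom F (IsHom.refl F) M, PowerSeries.map_X _⟩
  add_mem' := by
    rintro θ η ⟨f, hf, hf'⟩ ⟨g, hg, hg'⟩
    exact ⟨_, hf.add hg, by rw [rd_pl hf.1 hg.1, hf', hg']; rfl⟩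
  zero_mem' := ⟨0, Apx.of_hom F (isHom_zero F F) M, map_zero _⟩
  neg_mem' := by
    rintro θ ⟨f, hf, hf'⟩
    exact ⟨_, hf.neg, by rw [rd_subst hf.1, hf', rd_negS]; rfl⟩

variable {F}

theorem mem_EM {M : ℕ} {θ : EndF (spc F)} : θ ∈ EM F M ↔ ∃ f, Apx F M f ∧ rd f = θ.s := Iff.rfl

theorem EM_anti {M N : ℕ} (h : M ≤ N) : EM F N ≤ EM F M := by
  rintro θ ⟨f, hf, hf'⟩
  exact ⟨f, hf.mono F h, hf'⟩

/-- the constant lift of a series -/
theorem exists_rd (s : k⟦X⟧) (h0 : constantCoeff s = 0) :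
    ∃ f : PowerSeries k⟦X⟧, constantCoeff f = 0 ∧ rd f = s := by
  refine ⟨PowerSeries.map (PowerSeries.C (R := k)) s, map_hs h0 _, ?_⟩
  rw [rd, map_map']
  ext n
  simp

theorem EM_one : EM F 1 = ⊤ := by
  rw [eq_top_iff]
  intro θ _
  obtain ⟨f, h0, hf⟩ := exists_rd θ.s θ.hom.1
  refine ⟨f, ⟨h0, fun d => ?_⟩, hf⟩
  have h1 : MvPowerSeries.map (constantCoeff (R := k)) (dft F f) = 0 := by
    rw [map_dft F _ h0, sub_eq_zero]
    have := θ.hom.2
    rw [← hf] at this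
    exact this
  have h2 := congrArg (MvPowerSeries.coeff d) h1
  rw [MvPowerSeries.coeff_map, map_zero] at h2
  rw [pow_one, PowerSeries.X_dvd_iff]
  exact h2

theorem EM_zero : EM F 0 = ⊤ := by
  rw [eq_top_iff, ← EM_one]
  exact EM_anti (Nat.zero_le 1)

end Pool.Agent.H22.CG
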