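import Pool.Agent.H22.CG.Low
import Pool.Agent.H32.CG.Pt

/-!
# CH-ALL, chapter GROWTH, module G6: compactness
-/

open PowerSeries

namespace Pool.Agent.H22.CG

open Pool.Agent.H13.CA

section lim

variable {k : Type*} [Field k]

/-- series of order at least `r` -/
private def J (r : ℕ) : Ideal (MvPowerSeries (Fin 2) k) where
  carrier := {s | (r : ℕ∞) ≤ s.order}
  add_mem' ha hb := le_trans (le_min ha hb) MvPowerSeries.min_order_le_add
  zero_mem' := by
    show (r : ℕ∞) ≤ (0 : MvPowerSeries (Fin 2) k).order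
    rw [MvPowerSeries.order_zero]
    exact le_top
  smul_mem' c x hx := by
    show (r : ℕ∞) ≤ (c * x).order
    exact (le_trans (show (r : ℕ∞) ≤ x.order from hx) le_add_self).trans MvPowerSeries.le_order_mul

private theorem sub_mem_J {a : MvPowerSeries (Fin 2) k} (ha : MvPowerSeries.constantCoeff a = 0)
    {f g : k⟦X⟧} {r : ℕ} (h : (X : k⟦X⟧) ^ r ∣ f - g) :
    PowerSeries.subst a f - PowerSeries.subst a g ∈ (J r : Ideal (MvPowerSeries (Fin 2) k)) := by
  obtain ⟨w, hw⟩ := h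
  have hs : PowerSeries.HasSubst a := PowerSeries.HasSubst.of_constantCoeff_zero ha
  have h1 : PowerSeries.subst a f - PowerSeries.subst a g = a ^ r * PowerSeries.subst a w := by
    rw [← PowerSeries.coe_substAlgHom hs, ← map_sub, hw, map_mul, map_pow,
      PowerSeries.substAlgHom_X hs]
  rw [h1]
  have h2 : ((r : ℕ) : ℕ∞) ≤ (a ^ r).order :=
    MvPowerSeries.le_order_pow_of_constantCoeff_eq_zero r ha
  show (r : ℕ∞) ≤ (a ^ r * PowerSeries.subst a w).order
  exact (le_trans h2 le_self_add).trans MvPowerSeries.le_order_mul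

private theorem hom_lim {F G : FormalGroup k} {f : k⟦X⟧}
    (h : ∀ r : ℕ, ∃ g : k⟦X⟧, IsHom F G g ∧ (X : k⟦X⟧) ^ r ∣ f - g) : IsHom F G f := by
  have h0 : constantCoeff f = 0 := by
    obtain ⟨g, hg, h1⟩ := h 1
    rw [pow_one, PowerSeries.X_dvd_iff, map_sub, hg.1, sub_zero] at h1
    exact h1
  refine ⟨h0, ?_⟩
  ext d
  obtain ⟨g, hg, h1⟩ := h (d.degree + 1)
  have hJ : ∀ s ∈ (J (d.degree + 1) : Ideal (MvPowerSeries (Fin 2) k)),
      MvPowerSeries.coeff d s ∈ (⊥ : Ideal k) := by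
    intro s hs
    have h2 : ((d.degree + 1 : ℕ) : ℕ∞) ≤ s.order := hs
    rw [Ideal.mem_bot]
    apply MvPowerSeries.coeff_of_lt_order
    refine lt_of_lt_of_le ?_ h2
    exact_mod_cast Nat.lt_succ_self _
  have e1 : MvPowerSeries.coeff d (PowerSeries.subst F.toPowerSeries f) =
      MvPowerSeries.coeff d (PowerSeries.subst F.toPowerSeries g) := by
    have := hJ _ (sub_mem_J F.zero_constantCoeff h1)
    rw [Ideal.mem_bot, map_sub, sub_eq_zero] at this
    exact this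
  have hX : ∀ i : Fin 2, MvPowerSeries.constantCoeff (MvPowerSeries.X i : MvPowerSeries (Fin 2) k) = 0 :=
    fun i => MvPowerSeries.constantCoeff_X i
  have e2 := H32.CG.coeff_subst_sub_mem
    (hasSubst_pair (hs_subst (PowerSeries.HasSubst.X (S := k) (0 : Fin 2)) h0)
      (hs_subst (PowerSeries.HasSubst.X (S := k) (1 : Fin 2)) h0))
    (hasSubst_pair (hs_subst (PowerSeries.HasSubst.X (S := k) (0 : Fin 2)) hg.1)
      (hs_subst (PowerSeries.HasSubst.X (S := k) (1 : Fin 2)) hg.1))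
    (J (d.degree + 1)) (by
      intro i
      fin_cases i
      · exact sub_mem_J (hX 0) h1
      · exact sub_mem_J (hX 1) h1) ⊥ d hJ G.toPowerSeries
  rw [Ideal.mem_bot, sub_eq_zero] at e2
  rw [e1, e2, hg.2]

variable {F : FormalGroup k} [F.IsComm]

/-- `θ ≡ η` modulo `x ^ r` implies that `θ - η` is divisible by `x ^ r` -/
private theorem sub_dvd {θ η : EndF F} {r : ℕ} (h : (X : k⟦X⟧) ^ r ∣ θ.s - η.s) :
    (X : k⟦X⟧) ^ r ∣ (θ - η).s := by
  obtain ⟨W, hW⟩ := H32.CG.add_val F (σ := Unit)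
  have h1 : θ.s = pl F (σ := Unit) (θ - η).s η.s := by
    rw [← EndF.add_s, sub_add_cancel]
  have h2 : θ.s = (θ - η).s + η.s + (θ - η).s * η.s *
      MvPowerSeries.subst ![(θ - η).s, η.s] W := by
    rw [← hW _ _ (hs_zero (θ - η).hom.1) (hs_zero η.hom.1)]
    exact h1
  obtain ⟨w, hw⟩ : ∃ w : k⟦X⟧, w = MvPowerSeries.subst ![(θ - η).s, η.s] W := ⟨_, rfl⟩
  rw [← hw] at h2
  have h3 : θ.s - η.s = (θ - η).s * (1 + η.s * w) := by
    linear_combination h2
  have hu : IsUnit (1 + η.s * w : k⟦X⟧) := by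
    rw [PowerSeries.isUnit_iff_constantCoeff, map_add, map_mul, η.hom.1, map_one, zero_mul,
      add_zero]
    exact isUnit_one
  rw [h3] at h
  exact (hu.dvd_mul_right).1 h

end lim

variable {k : Type*} [Field k] (p : ℕ) [Fact p.Prime] [CharP k p]
  (F : FormalGroup k⟦X⟧) [F.IsComm] {h n : ℕ}

/-- `EM F M` contains all endomorphisms divisible by a high power of `x`. -/
theorem EM_open (hh : 1 ≤ h) (hlow : ∀ i, i < p ^ h → coeff i (mulSer F p) = 0) (hn : 1 ≤ n)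
    (hsp : HasHeight p n (spc F)) (M : ℕ) :
    ∃ r, ∀ θ : EndF (spc F), (X : k⟦X⟧) ^ r ∣ θ.s → θ ∈ EM F M := by
  refine ⟨p ^ (n * M), fun θ hθ => ?_⟩
  obtain ⟨η, rfl⟩ := dvd_of_order p hn hsp θ M hθ
  have h1 : η ∈ EM F 1 := by
    rw [EM_one]
    exact Subring.mem_top η
  have h2 := EM_low_pow p F hlow h1 M
  refine EM_anti (F := F) ?_ h2
  rw [mul_one]
  have hp : 1 < p ^ h := Nat.one_lt_pow (by omega) (Fact.out : p.Prime).one_lt
  exact (Nat.lt_pow_self hp).le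

/-- if no element of `S` (given by a condition on the linear coefficient) has `p ^ u ξ` of
infinite level, the levels are bounded -/
theorem cpt (hh : 1 ≤ h) (hlow : ∀ i, i < p ^ h → coeff i (mulSer F p) = 0) (hn : 1 ≤ n)
    (hsp : HasHeight p n (spc F)) (T : Set k) (u : ℕ)
    (hT : ∀ ξ : EndF (spc F), lin (spc F) ξ ∈ T → (p : EndF (spc F)) ^ u * ξ ∉ EI F) :
    ∃ M, ∀ ξ : EndF (spc F), lin (spc F) ξ ∈ T →
      (p : EndF (spc F)) ^ u * ξ ∉ EM F (M + 1) := by
  by_contra hcon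
  push Not at hcon
  letI : TopologicalSpace k := ⊥
  haveI : DiscreteTopology k := ⟨rfl⟩
  let cf : EndF (spc F) → ℕ → k := fun θ i => coeff i θ.s
  let S : ℕ → Set (EndF (spc F)) := fun M =>
    {ξ | lin (spc F) ξ ∈ T ∧ (p : EndF (spc F)) ^ u * ξ ∈ EM F (M + 1)}
  let t : ℕ → Set (ℕ → k) := fun M => closure (cf '' S M)
  let A : ℕ → Set k := fun i => Set.range fun θ : EndF (spc F) => coeff i θ.s
  have hA : ∀ i, (A i).Finite := by
    intro i
    refine ((finite_mod p hn hsp (i + 1)).image fun g => g ⟨i, Nat.lt_succ_self i⟩).subset ?_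
    rintro _ ⟨θ, rfl⟩
    exact ⟨_, ⟨θ, rfl⟩, rfl⟩
  have hK : IsCompact (Set.univ.pi A) := isCompact_univ_pi fun i => (hA i).isCompact
  have ht : ∀ M, t M ⊆ Set.univ.pi A := by
    intro M
    refine closure_minimal ?_ hK.isClosed
    rintro _ ⟨ξ, -, rfl⟩ i -
    exact ⟨ξ, rfl⟩
  have hne := IsCompact.nonempty_iInter_of_sequence_nonempty_isCompact_isClosed t
    (fun M => closure_mono (Set.image_mono fun ξ hξ => ⟨hξ.1, EM_anti (F := F) (by omega) hξ.2⟩))
    (fun M => by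
      obtain ⟨ξ, h1, h2⟩ := hcon M
      exact ⟨cf ξ, subset_closure ⟨ξ, ⟨h1, h2⟩, rfl⟩⟩)
    (hK.of_isClosed_subset isClosed_closure (ht 0))
    (fun M => isClosed_closure)
  obtain ⟨c, hc⟩ := hne
  have key : ∀ M r : ℕ, ∃ ξ ∈ S M, ∀ i, i < r → coeff i ξ.s = c i := by
    intro M r
    have h1 : c ∈ closure (cf '' S M) := Set.mem_iInter.1 hc M
    let O : Set (ℕ → k) := (Finset.range r : Set ℕ).pi fun i => {c i}
    have hO : IsOpen O := isOpen_set_pi (Finset.finite_toSet _) fun i _ => isOpen_discrete _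
    have hcO : c ∈ O := fun i _ => rfl
    obtain ⟨g, hg, ξ, hξ, rfl⟩ := mem_closure_iff.1 h1 O hO hcO
    refine ⟨ξ, hξ, fun i hi => ?_⟩
    exact hg i (Finset.mem_coe.2 (Finset.mem_range.2 hi))
  let f : k⟦X⟧ := PowerSeries.mk c
  have hf : ∀ (ξ : EndF (spc F)) (r : ℕ), (∀ i, i < r → coeff i ξ.s = c i) →
      (X : k⟦X⟧) ^ r ∣ f - ξ.s := by
    intro ξ r h1
    rw [PowerSeries.X_pow_dvd_iff]
    intro i hi
    rw [map_sub, PowerSeries.coeff_mk, h1 i hi, sub_self]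
  have hhom : IsHom (spc F) (spc F) f := hom_lim fun r => by
    obtain ⟨ξ, -, h1⟩ := key 0 r
    exact ⟨ξ.s, ξ.hom, hf ξ r h1⟩
  let θ : EndF (spc F) := ⟨f, hhom⟩
  have hlin : lin (spc F) θ ∈ T := by
    obtain ⟨ξ, h1, h2⟩ := key 0 2
    have h3 : lin (spc F) θ = lin (spc F) ξ := by
      rw [lin_apply, lin_apply]
      exact (PowerSeries.coeff_mk 1 c).trans (h2 1 (by omega)).symm
    rw [h3]
    exact h1.1
  refine hT θ hlin ?_
  rw [mem_EI]
  intro M
  obtain ⟨r, hr⟩ := EM_open p F hh hlow hn hsp M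
  obtain ⟨ξ, h1, h2⟩ := key M r
  have h3 : θ - ξ ∈ EM F M := hr _ (sub_dvd (hf ξ r h2))
  have h4 : (p : EndF (spc F)) ^ u * ξ ∈ EM F M := EM_anti (F := F) (by omega) h1.2
  have h5 : (p : EndF (spc F)) ^ u * θ =
      (p : EndF (spc F)) ^ u * ξ + (p : EndF (spc F)) ^ u * (θ - ξ) := by
    rw [← mul_add, add_sub_cancel]
  rw [h5]
  exact (EM F M).add_mem h4 ((EM F M).mul_mem ((EM F M).pow_mem (natCast_mem (EM F M) p) u) h3)

end Pool.Agent.H22.CG
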