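import Pool.Agent.H22.CG.Lev
import Pool.Agent.H85.CH.Dg1
import Pool.Agent.H85.CH.Ku1

/-!
# CH-ALL, chapter GROWTH, module G7: degree lemma and the end (think 2458 (3), helper32)

The ring theory is in `H85/CH/Deg.lean` (`degree_lemma`, `no_odd`, `no_lift`).
-/

open PowerSeries

namespace Pool.Agent.H22.CG

open Pool.Agent.H13.CA H85.CH

variable {k : Type*} [Field k]

section Conj

/-- an automorphism of `k⟦X⟧` does not change constant coefficients -/
theorem cc_aut (φ : k⟦X⟧ ≃ₐ[k] k⟦X⟧) (x : k⟦X⟧) : constantCoeff (φ x) = constantCoeff x := by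
  have h1 : constantCoeff (φ (x - C (constantCoeff x))) = 0 := by
    rw [← PowerSeries.coeff_zero_eq_constantCoeff_apply]
    have h2 : (X : k⟦X⟧) ^ 1 ∣ φ (x - C (constantCoeff x)) := by
      apply pow_dvd_aut
      rw [pow_one, PowerSeries.X_dvd_iff, map_sub, constantCoeff_C, sub_self]
    exact PowerSeries.X_pow_dvd_iff.1 h2 0 (by omega)
  have h3 : φ (C (constantCoeff x)) = C (constantCoeff x) := φ.commutes _
  rw [map_sub, h3, map_sub, constantCoeff_C, sub_eq_zero] at h1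
  exact h1

variable (F : FormalGroup k⟦X⟧) [F.IsComm]

/-- conjugation by a lifted automorphism preserves the levels: `(φ, g)` lifts `τ` -/
theorem conj_EM {φ : k⟦X⟧ ≃ₐ[k] k⟦X⟧} {g : PowerSeries k⟦X⟧}
    (hg : IsHom F (F.map (φ : k⟦X⟧ →+* k⟦X⟧)) g) {τ τ' : EndF (spc F)} (hτ : rd g = τ.s)
    (h1 : τ * τ' = 1) (h2 : τ' * τ = 1) {M : ℕ} {θ : EndF (spc F)} (hθ : θ ∈ EM F M) :
    τ * θ * τ' ∈ EM F M := by
  obtain ⟨f, hf, hfθ⟩ := hθ
  -- the inverse of g
  have hlin : coeff 1 τ.s * coeff 1 τ'.s = 1 := by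
    have h3 : coeff 1 (τ * τ').s = coeff 1 (1 : EndF (spc F)).s := by rw [h1]
    rw [EndF.mul_s, EndF.one_s, coeff_one_X, coeff_one_subst τ'.hom.1 τ.hom.1] at h3
    rw [mul_comm]
    exact h3
  have hgu : IsUnit (coeff 1 g) := by
    rw [PowerSeries.isUnit_iff_constantCoeff]
    have h3 : constantCoeff (coeff 1 g) = coeff 1 τ.s := by
      rw [← hτ]
      exact (PowerSeries.coeff_map _ _ _).symm
    rw [h3]
    exact IsUnit.of_mul_eq_one _ hlin
  obtain ⟨g', hg', hgg', hg'g⟩ := hg.inv hgu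
  -- the induced automorphism modulo t ^ M
  set I : Ideal k⟦X⟧ := Ideal.span {(X : k⟦X⟧) ^ M} with hI
  set mk : k⟦X⟧ →+* k⟦X⟧ ⧸ I := Ideal.Quotient.mk I with hmk
  set ψ : k⟦X⟧ →+* k⟦X⟧ := (φ.symm : k⟦X⟧ →+* k⟦X⟧) with hψ
  have hIψ : I ≤ I.comap ψ := by
    rw [hI, Ideal.span_singleton_le_iff_mem, Ideal.mem_comap, Ideal.mem_span_singleton]
    exact pow_dvd_aut φ.symm M _ dvd_rfl
  set ψb : k⟦X⟧ ⧸ I →+* k⟦X⟧ ⧸ I := Ideal.quotientMap I ψ hIψ with hψb
  have hcomm : ψb.comp mk = mk.comp ψ := Ideal.quotientMap_comp_mk hIψ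
  -- the lift
  set c : PowerSeries k⟦X⟧ := PowerSeries.subst (PowerSeries.subst g' f) g with hc
  have hf0 : constantCoeff f = 0 := hf.1
  have hg0 : constantCoeff g = 0 := hg.1
  have hg'0 : constantCoeff g' = 0 := hg'.1
  have hcc : constantCoeff c = 0 := cc_subst (cc_subst hg'0 hf0) hg0
  refine ⟨PowerSeries.map ψ c, ?_, ?_⟩
  · rw [apx_iff F M _ (map_hs hcc ψ)]
    have hfM : IsHom (F.map mk) (F.map mk) (PowerSeries.map mk f) := (apx_iff F M f hf0).1 hf
    have h3 : IsHom ((F.map (φ : k⟦X⟧ →+* k⟦X⟧)).map mk) ((F.map (φ : k⟦X⟧ →+* k⟦X⟧)).map mk)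
        (PowerSeries.map mk c) := by
      have h4 : PowerSeries.map mk c = PowerSeries.subst (PowerSeries.subst
          (PowerSeries.map mk g') (PowerSeries.map mk f)) (PowerSeries.map mk g) := by
        rw [hc, map_subst' (hs_zero (cc_subst hg'0 hf0)), map_subst' (hs_zero hg'0)]
      rw [h4]
      exact ((hg'.map mk).comp hfM).comp (hg.map mk)
    have h5 := h3.map ψb
    have h6 : ((F.map (φ : k⟦X⟧ →+* k⟦X⟧)).map mk).map ψb = F.map mk := by
      rw [fmap_map, fmap_map]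
      congr 1
      ext x
      rw [RingHom.comp_apply, RingHom.comp_apply]
      have h7 := congrArg (fun χ : k⟦X⟧ →+* k⟦X⟧ ⧸ I => χ ((φ : k⟦X⟧ →+* k⟦X⟧) x)) hcomm
      simp only [RingHom.comp_apply] at h7
      rw [h7]
      congr 1
      exact φ.symm_apply_apply x
    rw [h6, map_map', hcomm, ← map_map'] at h5
    exact h5
  · -- reduction
    have hred : ∀ z : PowerSeries k⟦X⟧, rd (PowerSeries.map ψ z) = rd z := by
      intro z
      unfold rd
      rw [map_map']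
      have h3 : (constantCoeff (R := k)).comp ψ = constantCoeff (R := k) :=
        RingHom.ext fun x => cc_aut φ.symm x
      rw [h3]
    have hrg' : rd g' = τ'.s := by
      have h3 : PowerSeries.subst (rd g') (rd g) = (X : k⟦X⟧) := by
        unfold rd
        rw [← map_subst' (hs_zero hg'0), hg'g, map_X']
      have hend : IsHom (spc F) (spc F) (rd g') := by
        have h4 := hg'.map (constantCoeff (R := k))
        have h5 : (F.map (φ : k⟦X⟧ →+* k⟦X⟧)).map (constantCoeff (R := k)) = spc F := by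
          unfold spc
          rw [fmap_map]
          have h3 : (constantCoeff (R := k)).comp (φ : k⟦X⟧ →+* k⟦X⟧) = constantCoeff (R := k) :=
            RingHom.ext fun x => cc_aut φ x
          rw [h3]
        rw [h5] at h4
        exact h4
      set τ'' : EndF (spc F) := ⟨rd g', hend⟩ with hτ''
      have h4 : τ * τ'' = 1 := by
        apply EndF.ext
        rw [EndF.mul_s, EndF.one_s, ← hτ]
        exact h3
      have h5 : τ'' = τ' := by
        calc τ'' = τ' * τ * τ'' := by rw [h2, one_mul]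
          _ = τ' := by rw [mul_assoc, h4, mul_one]
      exact congrArg EndF.s h5
    rw [hred, hc, mul_assoc, EndF.mul_s, EndF.mul_s]
    unfold rd
    rw [map_subst' (hs_zero (cc_subst hg'0 hf0)), map_subst' (hs_zero hg'0)]
    have e1 : PowerSeries.map (constantCoeff (R := k)) g = τ.s := hτ
    have e2 : PowerSeries.map (constantCoeff (R := k)) f = θ.s := hfθ
    have e3 : PowerSeries.map (constantCoeff (R := k)) g' = τ'.s := hrg'
    rw [e1, e2, e3]

end Conj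

variable [PerfectField k] (p : ℕ) [Fact p.Prime] [CharP k p]
  (F : FormalGroup k⟦X⟧) [F.IsComm] {h n : ℕ}

/-- the data of the ring theory -/
theorem data (hh : 1 ≤ h) (hn : 1 ≤ n)
    (hlow : ∀ i, i < p ^ h → coeff i (mulSer F p) = 0)
    (hv : coeff (p ^ h) (mulSer F p) ≠ 0) (hsp : HasHeight p n (spc F)) :
    Ordr p n (od (F := spc F)) ∧ Ordr p h (od (F := F)) ∧
    (∀ (f : EndF (spc F)) (s : ℕ), ((p : ℕ∞) ^ n) ^ s ≤ od f → ∃ g, f = (p : EndF (spc F)) ^ s * g) ∧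
    (∀ (f : EndF (spc F)) (c : ℕ), ∃ a b : ℕ, a < b ∧ ((p : ℕ∞) ^ n) ^ c ≤ od (f ^ b - f ^ a)) ∧
    (∃ ρ : EndF F →+* EndF (spc F), Function.Injective ρ ∧ (∀ f, ρ f ∈ EI F) ∧
      (∀ θ ∈ EI F, ∃ f, ρ f = θ)) ∧
    ∃ u₀ : ℕ, ∀ (u : ℕ) (ξ : EndF (spc F)), (p : EndF (spc F)) ^ u * ξ ∈ EI F →
      (p : EndF (spc F)) ^ u₀ * ξ ∈ EI F := by
  have hsp0 : mulSer (spc F) p ≠ 0 := by
    intro h1
    have := hsp.2
    rw [h1] at this
    simp at this
  have hO : Ordr p n (od (F := spc F)) := ordr (spc F) hsp.1 hsp.2.ne_zero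
  refine ⟨hO, ordr F hlow hv, ?_, ?_, ?_, ?_⟩
  · intro f s hs
    refine dvd_of_order p hn hsp f s ?_
    rw [PowerSeries.X_pow_dvd_iff]
    intro m hm
    apply PowerSeries.coeff_of_lt_order
    have h1 : ((m : ℕ) : ℕ∞) < ((p ^ (n * s) : ℕ) : ℕ∞) := by exact_mod_cast hm
    refine lt_of_lt_of_le h1 ?_
    have h2 : ((p ^ (n * s) : ℕ) : ℕ∞) = ((p : ℕ∞) ^ n) ^ s := by
      rw [← pow_mul]; push_cast; rfl
    rw [h2]
    exact hs
  · intro f c
    have hfin := finite_mod p hn hsp (p ^ (n * c))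
    let G : ℕ → (Fin (p ^ (n * c)) → k) := fun j i => coeff i.val (f ^ j).s
    have hG : (Set.range G).Finite := by
      refine hfin.subset ?_
      rintro _ ⟨j, rfl⟩
      exact ⟨f ^ j, rfl⟩
    have hninj : ¬ Function.Injective G := by
      intro hinj
      exact Set.infinite_range_of_injective hinj hG
    obtain ⟨a, b, hab, hne⟩ : ∃ a b, G a = G b ∧ a ≠ b := by
      rw [Function.not_injective_iff] at hninj
      exact hninj
    have key : ∀ a b, G a = G b → ((p : ℕ∞) ^ n) ^ c ≤ od (f ^ b - f ^ a) := by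
      intro a b hab
      have h2 : ((p ^ (n * c) : ℕ) : ℕ∞) = ((p : ℕ∞) ^ n) ^ c := by
        rw [← pow_mul]; push_cast; rfl
      rw [← h2]
      apply dvd_sub_of
      intro i hi
      exact (congrFun hab ⟨i, hi⟩).symm
    rcases lt_or_gt_of_ne hne with h | h
    · exact ⟨a, b, h, key a b hab⟩
    · exact ⟨b, a, h, key b a hab.symm⟩
  · exact ⟨EndF.map F (constantCoeff (R := k)), map_inj p F hsp0, fun f => map_mem_EI F f,
      fun θ hθ => exists_lift p F hsp0 hθ⟩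
  · obtain ⟨u0, hu0⟩ := sat p F hh hlow hv hsp0
    refine ⟨u0, fun u ξ hξ => hu0 ξ u ?_⟩
    rw [add_comm, pow_add, mul_assoc]
    exact (EI F).mul_mem ((EI F).pow_mem (natCast_mem _ _) _) hξ

/-- DEGREE LEMMA: `f` of infinite level, order `p ^ m` on the special fibre: `n ∣ h m`. -/
theorem degree (hh : 1 ≤ h) (hn : 1 ≤ n)
    (hlow : ∀ i, i < p ^ h → coeff i (mulSer F p) = 0)
    (hv : coeff (p ^ h) (mulSer F p) ≠ 0) (hsp : HasHeight p n (spc F)) {f : EndF (spc F)}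
    (hf : f ∈ EI F) {m : ℕ} (hm : f.s.order = (p ^ m : ℕ)) : n ∣ h * m := by
  obtain ⟨hO, hW, hdiv, hfin, ⟨ρ, hρ, hρ1, hρ2⟩, u₀, hu₀⟩ := data p F hh hn hlow hv hsp
  have hp : p.Prime := Fact.out
  obtain ⟨f', hf'⟩ := hρ2 f hf
  have h1 := degree_lemma hp.one_lt hh hn hO hW hdiv hfin ρ hρ u₀ (by
    rintro u ξ ⟨g, hg⟩
    exact hρ2 _ (hu₀ u ξ (hg ▸ hρ1 g))) f' m (by
      rw [hf']
      show f.s.order = _
      rw [hm]; push_cast; rfl)
  have hWf : od f' ≠ ⊤ := by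
    intro htop
    rw [htop, ENat.top_pow (by omega)] at h1
    have h9 : ((p : ℕ∞) ^ h) ^ m = (((p ^ h) ^ m : ℕ) : ℕ∞) := by push_cast; ring
    rw [h9] at h1
    exact ENat.natCast_ne_top _ h1.symm
  obtain ⟨w, hw⟩ := ENat.ne_top_iff_exists.1 hWf
  rw [← hw] at h1
  have h2 : w ^ n = (p ^ h) ^ m := by exact_mod_cast h1
  rw [← pow_mul] at h2
  obtain ⟨j, _, hj⟩ := (Nat.dvd_prime_pow hp).1 (h2 ▸ dvd_pow_self w (by omega : n ≠ 0))
  rw [hj, ← pow_mul] at h2
  have h3 : j * n = h * m := Nat.pow_right_injective hp.two_le h2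
  exact ⟨j, by rw [← h3, mul_comm]⟩

/-- THE END: `p ^ u ξ` has finite level if the linear coefficient of `ξ` is not in the prime
field; `τ = 1 + p ^ b P`, `P` of order `p`, lifts. -/
theorem the_end (hh : 1 ≤ h) (hn : h < n)
    (hlow : ∀ i, i < p ^ h → coeff i (mulSer F p) = 0)
    (hv : coeff (p ^ h) (mulSer F p) ≠ 0) (hsp : HasHeight p n (spc F))
    {φ : k⟦X⟧ ≃ₐ[k] k⟦X⟧} {g : PowerSeries k⟦X⟧}
    (hg : IsHom F (F.map (φ : k⟦X⟧ →+* k⟦X⟧)) g) {P : EndF (spc F)} {b : ℕ}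
    (hP : P.s.order = (p : ℕ)) (hτ : rd g = (1 + (p : EndF (spc F)) ^ b * P).s)
    (hu : IsUnit (1 + (p : EndF (spc F)) ^ b * P))
    (ξ : EndF (spc F)) (hξ : lin (spc F) ξ ^ p ≠ lin (spc F) ξ) (u : ℕ) :
    (p : EndF (spc F)) ^ u * ξ ∉ EI F := by
  intro hmem
  obtain ⟨hO, hW, hdiv, hfin, ⟨ρ, hρ, hρ1, hρ2⟩, u₀, hu₀⟩ := data p F hh (by omega) hlow hv hsp
  have hp : p.Prime := Fact.out
  obtain ⟨σ, hσ⟩ := hu
  -- orders
  have hξ0 : coeff 1 ξ.s ≠ 0 := by
    intro h0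
    apply hξ
    rw [lin_apply, h0, zero_pow hp.ne_zero]
  have hξord : ξ.s.order = ((1 : ℕ) : ℕ∞) := order_eq_of (fun i hi => by
    have : i = 0 := by omega
    subst this
    rw [PowerSeries.coeff_zero_eq_constantCoeff_apply]
    exact ξ.hom.1) hξ0
  have hc1 := H85.CH.order_comp (f := P.s) (g := ξ.s) ξ.hom.1 hP hξord
  have hc2 := H85.CH.order_comp (f := ξ.s) (g := P.s) P.hom.1 hξord hP
  rw [mul_one] at hc1
  rw [one_mul, pow_one] at hc2
  have hPc : coeff p P.s ≠ 0 := by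
    have hne : P.s ≠ 0 := by
      intro h0
      rw [h0, PowerSeries.order_zero] at hP
      exact absurd hP (by simp)
    have h2 := PowerSeries.coeff_order hne
    rw [hP] at h2
    exact h2
  have hcomm : od (P * ξ - ξ * P) = (p : ℕ∞) := by
    set δ := P * ξ - ξ * P with hδ
    have h1 : P * ξ = ξ * P + δ := by rw [hδ]; abel
    have hPξ : od (P * ξ) = (p : ℕ∞) := by
      show (P * ξ).s.order = _
      rw [EndF.mul_s]; exact hc1.1
    have hξP : od (ξ * P) = (p : ℕ∞) := by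
      show (ξ * P).s.order = _
      rw [EndF.mul_s]; exact hc2.1
    have hle : (p : ℕ∞) ≤ od δ := by
      have h2 := hO.sub (P * ξ) (ξ * P)
      rw [hPξ, hξP, min_self] at h2
      exact h2
    have hdvd : ∀ z : EndF (spc F), (p : ℕ∞) ≤ od z → X ^ p ∣ z.s := by
      intro z hz
      rw [PowerSeries.X_pow_dvd_iff]
      intro m hm
      apply PowerSeries.coeff_of_lt_order
      refine lt_of_lt_of_le ?_ hz
      exact_mod_cast hm
    have h3 : coeff p (P * ξ).s = coeff p (ξ * P).s + coeff p δ.s := by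
      conv_lhs => rw [h1, EndF.add_s]
      exact H85.CH.coeff_pl (spc F) hp.one_lt.le (hdvd _ hξP.ge) (hdvd _ hle) (by
        have := hp.pos; omega)
    rw [EndF.mul_s, EndF.mul_s, hc1.2, hc2.2] at h3
    have h4 : coeff p δ.s ≠ 0 := by
      intro h0
      rw [h0, add_zero, mul_comm] at h3
      exact hξ (by rw [lin_apply]; exact mul_right_cancel₀ hPc h3)
    refine le_antisymm ?_ hle
    exact PowerSeries.order_le _ h4
  have hconj : ∀ f : EndF F, ∃ g : EndF F, ρ g = σ * ρ f * ((σ⁻¹ : (EndF (spc F))ˣ) : EndF (spc F)) := by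
    intro f
    apply hρ2
    rw [mem_EI]
    intro M
    have h1 : ρ f ∈ EM F M := (mem_EI F).1 (hρ1 f) M
    exact conj_EM F hg (τ := (σ : EndF (spc F))) (by rw [hτ, hσ]) (Units.mul_inv σ)
      (Units.inv_mul σ) h1
  exact no_lift hp hh hn hO hW hdiv hfin ρ hρ u₀ (by
    rintro u ξ ⟨g, hg⟩
    exact hρ2 _ (hu₀ u ξ (hg ▸ hρ1 g))) ξ P b hcomm σ hσ hconj u (hρ2 _ hmem)

end Pool.Agent.H22.CG
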