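import Pool.Agent.H22.CG.Low

/-!
# CH-ALL, chapter GROWTH, module G4: the division step (think 2458 (1), helper32)
-/

open PowerSeries

namespace Pool.Agent.H22.CG

open Pool.Agent.H13.CA

variable {k : Type*} [Field k] [PerfectField k] (p : ℕ) [Fact p.Prime] [CharP k p]
  (F : FormalGroup k⟦X⟧) [F.IsComm] {h : ℕ}

/-- division step: `q = p ^ h`, `e = ord v`, `v` the coefficient of `x ^ q` in `[p]_F` -/
theorem div_step (hh : 1 ≤ h) (hlow : ∀ i, i < p ^ h → coeff i (mulSer F p) = 0) {e : ℕ}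
    (he : (coeff (p ^ h) (mulSer F p)).order = e) (hsp : mulSer (spc F) p ≠ 0) {M N : ℕ}
    (hM : 2 * e + 1 ≤ M) (hN : p ^ h * M + e + e * (p ^ h) ^ 2 < N) {θ : EndF (spc F)}
    (h1 : θ ∈ EM F M) (h2 : (p : EndF (spc F)) * θ ∈ EM F N) : θ ∈ EM F (M + 1) :=
  H32.CG.div_em p F hh hlow he hsp hM hN h1 h2

end Pool.Agent.H22.CG
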