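import Pool.Agent.H22.CG.Cpt
import Pool.Agent.H22.CG.Deg
import Pool.Agent.H32.CG.Lft

/-!
# CH-ALL, chapter GROWTH: the growth theorem
-/

open PowerSeries

namespace Pool.Agent.H22.CG

open Pool.Agent.H13.CA

variable {k : Type*} [Field k] [PerfectField k] (p : ℕ) [Fact p.Prime] [CharP k p]
  (F : FormalGroup k⟦X⟧) [F.IsComm] {h n : ℕ}

/-- GROWTH: one constant for all endomorphisms with linear coefficient outside the prime field. -/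
theorem growth (hh : 1 ≤ h) (hn : h < n)
    (hlow : ∀ i, i < p ^ h → coeff i (mulSer F p) = 0)
    (hv : coeff (p ^ h) (mulSer F p) ≠ 0) (hsp : HasHeight p n (spc F))
    {φ : k⟦X⟧ ≃ₐ[k] k⟦X⟧} {g : PowerSeries k⟦X⟧}
    (hg : IsHom F (F.map (φ : k⟦X⟧ →+* k⟦X⟧)) g) {P : EndF (spc F)} {b : ℕ}
    (hP : P.s.order = (p : ℕ)) (hτ : rd g = (1 + (p : EndF (spc F)) ^ b * P).s)
    (hu : IsUnit (1 + (p : EndF (spc F)) ^ b * P)) :
    ∃ C, ∀ (m : ℕ) (ξ : EndF (spc F)), lin (spc F) ξ ^ p ≠ lin (spc F) ξ →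
      (p : EndF (spc F)) ^ m * ξ ∉ EM F (C * (p ^ h) ^ m + 1) := by
  have h0 : mulSer (spc F) p ≠ 0 := by
    intro h1
    have := hsp.2
    rw [h1] at this
    simp at this
  refine (lev_bound p F hh hlow hv h0 {ξ | lin (spc F) ξ ^ p ≠ lin (spc F) ξ} ?_).imp
    fun C hC m ξ hξ => hC m ξ hξ
  intro u
  exact cpt p F hh hlow (hh.trans hn.le) hsp {z | z ^ p ≠ z} u
    fun ξ hξ => the_end p F hh hn hlow hv hsp hg hP hτ hu ξ hξ u

/-- an automorphism `φ ≡ id mod t ^ M` with a lifting `f` of `θ` gives `θ ∈ EM F M` -/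
theorem mem_EM_of_lift {φ : k⟦X⟧ ≃ₐ[k] k⟦X⟧} {f : PowerSeries k⟦X⟧}
    (hf : IsHom F (F.map (φ : k⟦X⟧ →+* k⟦X⟧)) f) {θ : EndF (spc F)} (hθ : rd f = θ.s) {M : ℕ}
    (hφ : (X : k⟦X⟧) ^ M ∣ φ X - X) : θ ∈ EM F M := H32.CG.mem_of_lift F hf hθ hφ

end Pool.Agent.H22.CG
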