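import Pool.Agent.H22.CG.Div

/-!
# CH-ALL, chapter GROWTH, module G5: levels
-/

open PowerSeries

namespace Pool.Agent.H22.CG

open Pool.Agent.H13.CA

variable {k : Type*} [Field k] [PerfectField k] (p : ℕ) [Fact p.Prime] [CharP k p]
  (F : FormalGroup k⟦X⟧) [F.IsComm] {h : ℕ}

/-- iterated division step -/
theorem div_iter (hh : 1 ≤ h) (hlow : ∀ i, i < p ^ h → coeff i (mulSer F p) = 0) {e : ℕ}
    (he : (coeff (p ^ h) (mulSer F p)).order = e) (hsp : mulSer (spc F) p ≠ 0) {N : ℕ}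
    {θ : EndF (spc F)} (h1 : θ ∈ EM F (2 * e + 1)) (h2 : (p : EndF (spc F)) * θ ∈ EM F N) :
    ∀ M, p ^ h * M + (e + e * (p ^ h) ^ 2) < N → θ ∈ EM F (M + 1) := by
  intro M
  induction M with
  | zero => intro _; exact EM_anti (by omega) h1
  | succ M ih =>
    intro hM
    have hle : p ^ h * M ≤ p ^ h * (M + 1) := Nat.mul_le_mul_left _ (by omega)
    have h3 := ih (by omega)
    rcases Nat.lt_or_ge (M + 1) (2 * e + 1) with h4 | h4
    · exact EM_anti (by omega) h1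
    · exact div_step p F hh hlow he hsp h4 (by omega) h3 h2

/-- the constant of the level theorem is `e + e q ^ 2` -/
theorem lev_exact (hh : 1 ≤ h) (hlow : ∀ i, i < p ^ h → coeff i (mulSer F p) = 0) {e : ℕ}
    (he : (coeff (p ^ h) (mulSer F p)).order = e) (hsp : mulSer (spc F) p ≠ 0)
    {θ : EndF (spc F)} (h1 : θ ∈ EM F (2 * e + 1)) (A : ℕ) (hA : e + e * (p ^ h) ^ 2 ≤ A)
    (u : ℕ) (h2 : (p : EndF (spc F)) ^ u * θ ∈ EM F ((p ^ h) ^ u * A + 1)) :
    θ ∈ EM F (A - (e + e * (p ^ h) ^ 2) + 1) := by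
  have hp2 := (Fact.out : p.Prime).two_le
  have hq2 : 2 ≤ p ^ h := by
    calc 2 ≤ p := hp2
      _ = p ^ 1 := (pow_one p).symm
      _ ≤ p ^ h := Nat.pow_le_pow_right (by omega) hh
  set q := p ^ h with hq
  set K := e + e * q ^ 2 with hK
  have key : ∀ j, j ≤ u → (p : EndF (spc F)) ^ (u - j) * θ ∈
      EM F (q ^ (u - j) * A - K + 1) := by
    intro j
    induction j with
    | zero =>
      intro _
      rw [Nat.sub_zero]
      exact EM_anti (by omega) h2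
    | succ j ih =>
      intro hj
      have h3 := ih (by omega)
      obtain ⟨i, hi⟩ : ∃ i, u - j = i + 1 := ⟨u - j - 1, by omega⟩
      have hi' : u - (j + 1) = i := by omega
      rw [hi] at h3
      rw [hi']
      have h3' : (p : EndF (spc F)) * ((p : EndF (spc F)) ^ i * θ) ∈
          EM F (q ^ (i + 1) * A - K + 1) := by
        rw [← mul_assoc, ← pow_succ']; exact h3
      have h4 : (p : EndF (spc F)) ^ i * θ ∈ EM F (2 * e + 1) := by
        refine EM_anti ?_ (EM_low_pow p F hlow h1 i)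
        exact Nat.le_mul_of_pos_left _ (Nat.pow_pos (by omega))
      refine div_iter p F hh hlow he hsp h4 h3' _ ?_
      rw [← hq, ← hK, pow_succ']
      have h5 : A ≤ q ^ i * A := Nat.le_mul_of_pos_left _ (Nat.pow_pos (by omega))
      obtain ⟨B, hB⟩ : ∃ B, q ^ i * A = K + B := ⟨q ^ i * A - K, by omega⟩
      rw [mul_assoc, hB, Nat.add_sub_cancel_left, Nat.mul_add]
      have h6 : 2 * K ≤ q * K := Nat.mul_le_mul_right _ hq2
      omega
  have h7 := key u le_rfl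
  rwa [Nat.sub_self, pow_zero, one_mul, pow_zero, one_mul] at h7

/-- levels grow exactly by the factor `q`, up to a constant -/
theorem lev (hh : 1 ≤ h) (hlow : ∀ i, i < p ^ h → coeff i (mulSer F p) = 0) {e : ℕ}
    (he : (coeff (p ^ h) (mulSer F p)).order = e) (hsp : mulSer (spc F) p ≠ 0) :
    ∃ c, ∀ (θ : EndF (spc F)) (M u : ℕ), θ ∈ EM F (2 * e + 1) → θ ∉ EM F (M + 1) →
      (p : EndF (spc F)) ^ u * θ ∉ EM F ((p ^ h) ^ u * (M + c) + 1) := by
  refine ⟨e + e * (p ^ h) ^ 2, fun θ M u h1 h2 h3 => h2 ?_⟩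
  have := lev_exact p F hh hlow he hsp h1 _ (Nat.le_add_left _ M) u h3
  rwa [Nat.add_sub_cancel] at this

omit [PerfectField k] in
/-- the elements `p ^ u0 θ` have level at least `2 e + 1` -/
theorem exists_u0 (hh : 1 ≤ h) (hlow : ∀ i, i < p ^ h → coeff i (mulSer F p) = 0) (e : ℕ) :
    ∀ θ : EndF (spc F), (p : EndF (spc F)) ^ (2 * e + 1) * θ ∈ EM F (2 * e + 1) := by
  intro θ
  have h1 : θ ∈ EM F 1 := by rw [EM_one]; trivial
  refine EM_anti ?_ (EM_low_pow p F hlow h1 (2 * e + 1))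
  rw [mul_one]
  have hp2 := (Fact.out : p.Prime).two_le
  have hq2 : 2 ≤ p ^ h := by
    calc 2 ≤ p := hp2
      _ = p ^ 1 := (pow_one p).symm
      _ ≤ p ^ h := Nat.pow_le_pow_right (by omega) hh
  exact (Nat.lt_pow_self (by omega)).le

theorem exists_order {A : Type*} [CommRing A] {f : A⟦X⟧} (hf : f ≠ 0) : ∃ e : ℕ, f.order = e :=
  ⟨f.order.toNat, (ENat.natCast_toNat fun h => hf (PowerSeries.order_eq_top.1 h)).symm⟩

/-- saturation of `EI` from the level `u0` on, and every `p ^ u0 θ` has level at least `2 e + 1` -/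
theorem sat (hh : 1 ≤ h) (hlow : ∀ i, i < p ^ h → coeff i (mulSer F p) = 0)
    (hv : coeff (p ^ h) (mulSer F p) ≠ 0) (hsp : mulSer (spc F) p ≠ 0) :
    ∃ u0, ∀ (θ : EndF (spc F)) (u : ℕ), (p : EndF (spc F)) ^ (u + u0) * θ ∈ EI F →
      (p : EndF (spc F)) ^ u0 * θ ∈ EI F := by
  obtain ⟨e, he⟩ := exists_order hv
  obtain ⟨c, hc⟩ := lev p F hh hlow he hsp
  refine ⟨2 * e + 1, fun θ u hθ => ?_⟩
  rw [mem_EI] at hθ ⊢
  intro M
  by_contra hM
  have h1 : (p : EndF (spc F)) ^ (2 * e + 1) * θ ∉ EM F (M + 1) := fun h =>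
    hM (EM_anti (by omega) h)
  have h2 := hc _ M u (exists_u0 p F hh hlow e θ) h1
  rw [← mul_assoc, ← pow_add] at h2
  exact h2 (hθ _)

/-- the form used for the growth theorem -/
theorem lev_bound (hh : 1 ≤ h) (hlow : ∀ i, i < p ^ h → coeff i (mulSer F p) = 0)
    (hv : coeff (p ^ h) (mulSer F p) ≠ 0) (hsp : mulSer (spc F) p ≠ 0)
    (S : Set (EndF (spc F)))
    (hS : ∀ u, ∃ M, ∀ ξ ∈ S, (p : EndF (spc F)) ^ u * ξ ∉ EM F (M + 1)) :
    ∃ C, ∀ m, ∀ ξ ∈ S, (p : EndF (spc F)) ^ m * ξ ∉ EM F (C * (p ^ h) ^ m + 1) := by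
  obtain ⟨e, he⟩ := exists_order hv
  obtain ⟨c, hc⟩ := lev p F hh hlow he hsp
  obtain ⟨M, hM⟩ := hS (2 * e + 1)
  have hpos : ∀ a, 1 ≤ (p ^ h) ^ a := fun a =>
    Nat.one_le_pow _ _ (Nat.pow_pos (Fact.out : p.Prime).pos)
  refine ⟨M + c, fun m ξ hξ hmem => ?_⟩
  rcases Nat.lt_or_ge m (2 * e + 1) with hm | hm
  · have h1 := EM_low_pow p F hlow hmem (2 * e + 1 - m)
    rw [← mul_assoc, ← pow_add, Nat.sub_add_cancel (by omega)] at h1
    refine hM ξ hξ (EM_anti ?_ h1)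
    have h2 := hpos (2 * e + 1 - m)
    have h3 := hpos m
    calc M + 1 ≤ (M + c) * 1 + 1 := by omega
      _ ≤ (M + c) * (p ^ h) ^ m + 1 := by
        exact Nat.add_le_add_right (Nat.mul_le_mul_left _ h3) 1
      _ ≤ _ := Nat.le_mul_of_pos_left _ (by omega)
  · have h1 := hc _ M (m - (2 * e + 1)) (exists_u0 p F hh hlow e ξ) (hM ξ hξ)
    rw [← mul_assoc, ← pow_add, Nat.sub_add_cancel hm] at h1
    refine h1 (EM_anti ?_ hmem)
    have h2 : (p ^ h) ^ (m - (2 * e + 1)) ≤ (p ^ h) ^ m :=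
      Nat.pow_le_pow_right (Nat.pow_pos (Fact.out : p.Prime).pos) (by omega)
    have h3 := Nat.mul_le_mul_right (M + c) h2
    rw [mul_comm (M + c)]
    omega

end Pool.Agent.H22.CG
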