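import Pool.Agent.H22.CG.Apx
import Pool.Agent.H22.CG.Fld
import Pool.Agent.H32.CG.Brg

/-!
# CH-ALL, chapter GROWTH, module G3: `p` raises levels by the factor `q = p ^ h`; uniqueness of
lifts; the limit ring `EI`
-/

open PowerSeries

namespace Pool.Agent.H22.CG

open Pool.Agent.H13.CA

variable {k : Type*} [Field k] (p : ℕ) [Fact p.Prime] [CharP k p] (F : FormalGroup k⟦X⟧)
  [F.IsComm] {h : ℕ}

/-- `[p]_F = V (x ^ q)` -/
theorem mulSer_factor (hlow : ∀ i, i < p ^ h → coeff i (mulSer F p) = 0) :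
    ∃ V : PowerSeries k⟦X⟧, constantCoeff V = 0 ∧
      mulSer F p = PowerSeries.subst (X ^ p ^ h : PowerSeries k⟦X⟧) V := H32.CG.factor p F hlow

/-- level of `p θ` at least `q` times the level of `θ` -/
theorem EM_low (hlow : ∀ i, i < p ^ h → coeff i (mulSer F p) = 0) {M : ℕ} {θ : EndF (spc F)}
    (hθ : θ ∈ EM F M) : (p : EndF (spc F)) * θ ∈ EM F (p ^ h * M) := H32.CG.low p F hlow hθ

theorem EM_low_pow (hlow : ∀ i, i < p ^ h → coeff i (mulSer F p) = 0) {M : ℕ}
    {θ : EndF (spc F)} (hθ : θ ∈ EM F M) (u : ℕ) :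
    (p : EndF (spc F)) ^ u * θ ∈ EM F ((p ^ h) ^ u * M) := H32.CG.low_pow p F hlow hθ u

/-- uniqueness of approximate lifts: they are unique modulo `t ^ M` -/
theorem apx_unique (hsp : mulSer (spc F) p ≠ 0) {M : ℕ} {f g : PowerSeries k⟦X⟧}
    (hf : Apx F M f) (hg : Apx F M g) (h : rd f = rd g) (i : ℕ) :
    (X : k⟦X⟧) ^ M ∣ coeff i f - coeff i g := by
  have key : ∀ {e : PowerSeries k⟦X⟧} (he : Apx F M e),
      MvPowerSeries.C ((X : k⟦X⟧) ^ M) ∣ (H32.CG.D F (⟨e, hs_zero he.1⟩ : F.Point Unit)).val := by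
    intro e he
    rw [H32.CG.D_apply, sub_sub, H32.CG.dvd_sub_iff]
    exact H32.CG.C_dvd_iff.2 he.2
  set a : F.Point Unit := ⟨f, hs_zero hf.1⟩ with ha
  set b : F.Point Unit := ⟨g, hs_zero hg.1⟩ with hb
  have h1 : MvPowerSeries.C (X : k⟦X⟧) ∣ (a - b).val := by
    rw [H32.CG.dvd_sub_iff, H32.CG.CX_dvd_iff, map_sub, sub_eq_zero]
    exact h
  have h2 : MvPowerSeries.C ((X : k⟦X⟧) ^ M) ∣ (H32.CG.D F (a - b)).val := by
    rw [map_sub]
    exact H32.CG.dvd_sub_val (key hf) (key hg)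
  have h3 := H32.CG.uniq F p hsp (a - b) h1 M h2
  rw [H32.CG.dvd_sub_iff] at h3
  have h4 := (H32.CG.C_dvd_iff' (s := (f - g : PowerSeries k⟦X⟧))).1 h3 i
  rwa [map_sub] at h4

/-- endomorphisms which lift modulo all powers of `t` -/
noncomputable def EI : Subring (EndF (spc F)) := ⨅ M, EM F M

theorem mem_EI {θ : EndF (spc F)} : θ ∈ EI F ↔ ∀ M, θ ∈ EM F M := by
  simp [EI, Subring.mem_iInf]

omit [F.IsComm] in
private theorem low_hom {f : PowerSeries k⟦X⟧} (h0 : constantCoeff f = 0) (h : dft F f = 0) : IsHom F F f :=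
  ⟨h0, sub_eq_zero.1 h⟩

omit [F.IsComm] in
private theorem low_dft {f : PowerSeries k⟦X⟧} (h : IsHom F F f) : dft F f = 0 := sub_eq_zero.2 h.2

private theorem low_zero {a : k⟦X⟧} (h : ∀ M : ℕ, (X : k⟦X⟧) ^ M ∣ a) : a = 0 := by
  ext j
  rw [map_zero]
  exact X_pow_dvd_iff.1 (h (j + 1)) j (Nat.lt_succ_self j)

/-- series which are congruent modulo `t ^ M` -/
private theorem low_congr {M : ℕ} {f g : PowerSeries k⟦X⟧} (hf0 : constantCoeff f = 0) (hg : Apx F M g)
    (h : ∀ i, (X : k⟦X⟧) ^ M ∣ coeff i f - coeff i g) : Apx F M f := by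
  have h1 : PowerSeries.map (Ideal.Quotient.mk (Ideal.span {(X : k⟦X⟧) ^ M})) f =
      PowerSeries.map (Ideal.Quotient.mk (Ideal.span {(X : k⟦X⟧) ^ M})) g := by
    ext i
    rw [coeff_map, coeff_map]
    exact Ideal.Quotient.eq.2 (Ideal.mem_span_singleton.2 (h i))
  rw [apx_iff F M f hf0, h1]
  exact (apx_iff F M g hg.1).1 hg

/-- an element of `EI` lifts to an endomorphism of `F` -/
theorem exists_lift (hsp : mulSer (spc F) p ≠ 0) {θ : EndF (spc F)} (hθ : θ ∈ EI F) :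
    ∃ f : EndF F, EndF.map F (constantCoeff (R := k)) f = θ := by
  have h1 : ∀ M, ∃ f, Apx F M f ∧ rd f = θ.s := fun M => (mem_EI F).1 hθ M
  choose f hf hr using h1
  have hle : ∀ M N, M ≤ N → ∀ i, (X : k⟦X⟧) ^ M ∣ coeff i (f M) - coeff i (f N) := by
    intro M N hMN i
    refine apx_unique p F hsp (hf M) ⟨(hf N).1, fun d => ?_⟩ ((hr M).trans (hr N).symm) i
    exact (pow_dvd_pow _ hMN).trans ((hf N).2 d)
  obtain ⟨g, hg⟩ : ∃ g : PowerSeries k⟦X⟧, ∀ i j, coeff j (coeff i g) = coeff j (coeff i (f (j + 1))) :=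
    ⟨PowerSeries.mk fun i => PowerSeries.mk fun j => coeff j (coeff i (f (j + 1))), fun i j => by
      rw [coeff_mk, coeff_mk]⟩
  have hgf : ∀ M i, (X : k⟦X⟧) ^ M ∣ coeff i g - coeff i (f M) := by
    intro M i
    rw [X_pow_dvd_iff]
    intro j hj
    have h2 := X_pow_dvd_iff.1 (hle (j + 1) M hj i) j (Nat.lt_succ_self j)
    rw [map_sub, hg]
    rwa [map_sub] at h2
  have hg0 : constantCoeff g = 0 := by
    refine low_zero fun M => ?_
    have h2 := hgf M 0
    rw [coeff_zero_eq_constantCoeff_apply, coeff_zero_eq_constantCoeff_apply, (hf M).1, sub_zero] at h2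
    exact h2
  have hA : ∀ M, Apx F M g := fun M => low_congr F hg0 (hf M) (hgf M)
  have hd : dft F g = 0 := by
    refine MvPowerSeries.ext fun d => ?_
    rw [map_zero]
    exact low_zero fun M => (hA M).2 d
  refine ⟨⟨g, low_hom F hg0 hd⟩, EndF.ext ?_⟩
  rw [EndF.map_s]
  show PowerSeries.map (constantCoeff (R := k)) g = θ.s
  rw [← hr 1]
  show PowerSeries.map (constantCoeff (R := k)) g = PowerSeries.map (constantCoeff (R := k)) (f 1)
  ext i
  rw [coeff_map, coeff_map]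
  have h2 := X_pow_dvd_iff.1 (hgf 1 i) 0 Nat.zero_lt_one
  rw [map_sub, sub_eq_zero] at h2
  rw [← coeff_zero_eq_constantCoeff_apply, ← coeff_zero_eq_constantCoeff_apply]
  exact h2

/-- reduction is injective on `End F` -/
theorem map_inj (hsp : mulSer (spc F) p ≠ 0) :
    Function.Injective (EndF.map F (constantCoeff (R := k))) := by
  intro f g h
  have h1 : rd f.s = rd g.s := by
    have h2 := congrArg EndF.s h
    rw [EndF.map_s, EndF.map_s] at h2
    exact h2
  have hA : ∀ (e : EndF F) (M : ℕ), Apx F M e.s := fun e M => ⟨e.hom.1, fun d => by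
    rw [low_dft F e.hom, map_zero]
    exact dvd_zero _⟩
  refine EndF.ext (PowerSeries.ext fun i => ?_)
  exact sub_eq_zero.1 (low_zero fun M => apx_unique p F hsp (hA f M) (hA g M) h1 i)

theorem map_mem_EI (f : EndF F) : EndF.map F (constantCoeff (R := k)) f ∈ EI F := by
  refine (mem_EI F).2 fun M => ⟨f.s, ⟨f.hom.1, fun d => ?_⟩, ?_⟩
  · rw [low_dft F f.hom, map_zero]
    exact dvd_zero _
  · rw [EndF.map_s]
    rfl

end Pool.Agent.H22.CG
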