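import Pool.Agent.H13.CA.Grp

/-!
# CH-ALL, chapter GROWTH: the formal inverse
-/

open PowerSeries Finsupp

namespace Pool.Agent.H22.CG

open Pool.Agent.H13.CA

variable {R S : Type*} [CommRing R] [CommRing S]

theorem coeff_Xzero (F : FormalGroup R) (i : ℕ) :
    coeff i F.Xzero = MvPowerSeries.coeff (single 0 i) F.toPowerSeries := by
  have hs : MvPowerSeries.HasSubst (![(X : R⟦X⟧), 0] : Fin 2 → MvPowerSeries Unit R) :=
    MvPowerSeries.HasSubst.X_zero
  rw [PowerSeries.coeff, FormalGroup.Xzero, MvPowerSeries.coeff_subst hs,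
    finsum_eq_single _ (single 0 i)]
  · simp only [Fin.isValue, prod_single_index, pow_zero, smul_eq_mul, Matrix.cons_val_zero]
    rw [← PowerSeries.coeff, PowerSeries.coeff_X_pow_self, mul_one]
  · intro d hd
    by_cases h1 : d 1 = 0
    · have h0 : d 0 ≠ i := by
        rintro rfl
        apply hd
        ext s
        fin_cases s
        · simp
        · simpa using h1
      rw [Finsupp.prod_fintype _ _ (by simp)]
      simp only [Fin.isValue, Fin.prod_univ_two, Matrix.cons_val_zero, Matrix.cons_val_one, h1,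
        pow_zero, mul_one, smul_eq_mul]
      rw [← PowerSeries.coeff, PowerSeries.coeff_X_pow, if_neg (Ne.symm h0), mul_zero]
    · rw [Finsupp.prod_fintype _ _ (by simp)]
      simp [h1]

theorem coeff_zeroX (F : FormalGroup R) (i : ℕ) :
    coeff i F.zeroX = MvPowerSeries.coeff (single 1 i) F.toPowerSeries := by
  have hs : MvPowerSeries.HasSubst (![0, (X : R⟦X⟧)] : Fin 2 → MvPowerSeries Unit R) :=
    MvPowerSeries.HasSubst.zero_X
  rw [PowerSeries.coeff, FormalGroup.zeroX, MvPowerSeries.coeff_subst hs,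
    finsum_eq_single _ (single 1 i)]
  · simp only [Fin.isValue, prod_single_index, pow_zero, smul_eq_mul, Matrix.cons_val_one,
      Matrix.cons_val_fin_one]
    rw [← PowerSeries.coeff, PowerSeries.coeff_X_pow_self, mul_one]
  · intro d hd
    by_cases h1 : d 0 = 0
    · have h0 : d 1 ≠ i := by
        rintro rfl
        apply hd
        ext s
        fin_cases s
        · simpa using h1
        · simp
      rw [Finsupp.prod_fintype _ _ (by simp)]
      simp only [Fin.isValue, Fin.prod_univ_two, Matrix.cons_val_zero, Matrix.cons_val_one, h1,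
        pow_zero, one_mul, smul_eq_mul, Matrix.cons_val_fin_one]
      rw [← PowerSeries.coeff, PowerSeries.coeff_X_pow, if_neg (Ne.symm h0), mul_zero]
    · rw [Finsupp.prod_fintype _ _ (by simp)]
      simp [h1]

/-- `F (x, y) = x + y + x y W` -/
theorem exists_W (F : FormalGroup R) : ∃ W : MvPowerSeries (Fin 2) R, F.toPowerSeries =
    MvPowerSeries.X 0 + MvPowerSeries.X 1 + MvPowerSeries.X 0 * MvPowerSeries.X 1 * W := by
  classical
  have h0 : (MvPowerSeries.X 0 : MvPowerSeries (Fin 2) R) ∣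
      F.toPowerSeries - MvPowerSeries.X 0 - MvPowerSeries.X 1 := by
    rw [MvPowerSeries.X_dvd_iff]
    intro m hm
    have hm' : m = single 1 (m 1) := by
      ext s
      fin_cases s
      · simpa using hm
      · simp
    rw [map_sub, map_sub, hm', ← coeff_zeroX, F.zeroX_eq_X, PowerSeries.coeff_X,
      MvPowerSeries.coeff_X, MvPowerSeries.coeff_X]
    by_cases h1 : m 1 = 1
    · simp [h1, Finsupp.single_left_inj]
    · rw [if_neg h1, if_neg, if_neg]
      · simp
      · intro h; apply h1; simpa using DFunLike.congr_fun h 1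
      · intro h; simpa using DFunLike.congr_fun h 0
  obtain ⟨G, hG⟩ := h0
  have h1 : (MvPowerSeries.X 1 : MvPowerSeries (Fin 2) R) ∣ G := by
    rw [MvPowerSeries.X_dvd_iff]
    intro m hm
    have hm' : m = single 0 (m 0) := by
      ext s
      fin_cases s
      · simp
      · simpa using hm
    have e : MvPowerSeries.coeff (m + single 0 1) (F.toPowerSeries - MvPowerSeries.X 0 -
        MvPowerSeries.X 1) = MvPowerSeries.coeff m G := by
      rw [hG, mul_comm, MvPowerSeries.X, MvPowerSeries.coeff_add_mul_monomial, mul_one]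
    rw [← e, map_sub, map_sub, hm', ← single_add, ← coeff_Xzero, F.Xzero_eq_X,
      PowerSeries.coeff_X, MvPowerSeries.coeff_X, MvPowerSeries.coeff_X]
    by_cases h1 : m 0 = 0
    · simp [h1, Finsupp.single_left_inj]
    · rw [if_neg (by omega), if_neg, if_neg]
      · simp
      · intro h; simpa using DFunLike.congr_fun h 1
      · intro h; apply h1; simpa using DFunLike.congr_fun h 0
  obtain ⟨W, rfl⟩ := h1
  refine ⟨W, ?_⟩
  rw [mul_assoc, ← hG]
  ring

/-- substitution respects congruences modulo `X ^ n` -/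
theorem subst_congr (φ : MvPowerSeries (Fin 2) R) {a a' y y' : R⟦X⟧} (ha : constantCoeff a = 0)
    (ha' : constantCoeff a' = 0)
    (hy : constantCoeff y = 0) (hy' : constantCoeff y' = 0) {n : ℕ} (h0 : (X : R⟦X⟧) ^ n ∣ a - a')
    (h : (X : R⟦X⟧) ^ n ∣ y - y') :
    (X : R⟦X⟧) ^ n ∣ (MvPowerSeries.subst ![a, y] φ : R⟦X⟧) - MvPowerSeries.subst ![a', y'] φ := by
  rw [PowerSeries.X_pow_dvd_iff]
  intro e he
  have h1 : MvPowerSeries.HasSubst (![a, y] : Fin 2 → MvPowerSeries Unit R) :=
    hasSubst_pair (hs_zero ha) (hs_zero hy)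
  have h2 : MvPowerSeries.HasSubst (![a', y'] : Fin 2 → MvPowerSeries Unit R) :=
    hasSubst_pair (hs_zero ha') (hs_zero hy')
  rw [map_sub, sub_eq_zero, PowerSeries.coeff, MvPowerSeries.coeff_subst h1,
    MvPowerSeries.coeff_subst h2]
  refine finsum_congr fun d => ?_
  congr 1
  rw [← PowerSeries.coeff, ← sub_eq_zero, ← map_sub]
  have : (X : R⟦X⟧) ^ n ∣ (d.prod fun s e => (![a, y] s) ^ e : R⟦X⟧) -
      d.prod fun s e => (![a', y'] s) ^ e := by
    rw [Finsupp.prod_fintype _ _ (by simp), Finsupp.prod_fintype _ _ (by simp)]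
    simp only [Fin.isValue, Fin.prod_univ_two, Matrix.cons_val_zero, Matrix.cons_val_one,
      Matrix.cons_val_fin_one]
    have e1 : a ^ d 0 * y ^ d 1 - a' ^ d 0 * y' ^ d 1 =
      (a ^ d 0 - a' ^ d 0) * y ^ d 1 + a' ^ d 0 * (y ^ d 1 - y' ^ d 1) := by ring
    rw [e1]
    exact dvd_add ((h0.trans (sub_dvd_pow_sub_pow _ _ _)).mul_right _)
      ((h.trans (sub_dvd_pow_sub_pow _ _ _)).mul_left _)
  exact (PowerSeries.X_pow_dvd_iff.1 this) e he

theorem subst_form {F : FormalGroup R} {W : MvPowerSeries (Fin 2) R} (hW : F.toPowerSeries =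
    MvPowerSeries.X 0 + MvPowerSeries.X 1 + MvPowerSeries.X 0 * MvPowerSeries.X 1 * W)
    {σ : Type*} {a b : MvPowerSeries σ R} (ha : PowerSeries.HasSubst a)
    (hb : PowerSeries.HasSubst b) :
    MvPowerSeries.subst ![a, b] F.toPowerSeries = a + b + a * b * MvPowerSeries.subst ![a, b] W := by
  have h := hasSubst_pair ha hb
  rw [hW, MvPowerSeries.subst_add h, MvPowerSeries.subst_add h, MvPowerSeries.subst_mul h,
    MvPowerSeries.subst_mul h, MvPowerSeries.subst_X h, MvPowerSeries.subst_X h]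
  simp

/-- the iteration `y ↦ y - F (X, y)` -/
private noncomputable def Ti (F : FormalGroup R) (y : R⟦X⟧) : R⟦X⟧ :=
  y - MvPowerSeries.subst ![(X : R⟦X⟧), y] F.toPowerSeries

private theorem Ti_cc (F : FormalGroup R) {y : R⟦X⟧} (hy : constantCoeff y = 0) :
    constantCoeff (Ti F y) = 0 := by
  rw [Ti, map_sub, hy, zero_sub, neg_eq_zero]
  exact cc_F_subst F (show constantCoeff (X : R⟦X⟧) = 0 by simp) hy

private theorem Ti_congr (F : FormalGroup R) {y y' : R⟦X⟧} (hy : constantCoeff y = 0)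
    (hy' : constantCoeff y' = 0) {n : ℕ} (h : (X : R⟦X⟧) ^ n ∣ y - y') :
    (X : R⟦X⟧) ^ (n + 1) ∣ Ti F y - Ti F y' := by
  obtain ⟨W, hW⟩ := exists_W F
  have e1 := subst_form (σ := Unit) hW (hs_zero (f := (X : R⟦X⟧)) (by simp)) (hs_zero hy)
  have e2 := subst_form (σ := Unit) hW (hs_zero (f := (X : R⟦X⟧)) (by simp)) (hs_zero hy')
  have e3 := subst_congr W (a := X) (a' := X) (by simp) (by simp) hy hy'
    (by rw [sub_self]; exact dvd_zero _) h
  rw [Ti, Ti]
  erw [e1, e2]
  set u : R⟦X⟧ := MvPowerSeries.subst ![(X : R⟦X⟧), y] W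
  set u' : R⟦X⟧ := MvPowerSeries.subst ![(X : R⟦X⟧), y'] W
  have e4 : y - (X + y + X * y * u) - (y' - (X + y' + X * y' * u')) =
    -(X * ((y - y') * u + y' * (u - u'))) := by ring
  erw [e4]
  rw [dvd_neg, pow_succ, mul_comm]
  exact mul_dvd_mul_left _ (dvd_add (h.mul_right _) (e3.mul_left _))

/-- existence of the formal inverse -/
theorem exists_neg (F : FormalGroup R) : ∃ i : R⟦X⟧, constantCoeff i = 0 ∧
    (MvPowerSeries.subst ![(X : R⟦X⟧), i] F.toPowerSeries : R⟦X⟧) = 0 := by
  have hc : ∀ m : ℕ, constantCoeff ((Ti F)^[m] 0) = 0 := by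
    intro m
    induction m with
    | zero => simp
    | succ m ih => rw [Function.iterate_succ_apply']; exact Ti_cc F ih
  have hd : ∀ m : ℕ, (X : R⟦X⟧) ^ m ∣ (Ti F)^[m + 1] 0 - (Ti F)^[m] 0 := by
    intro m
    induction m with
    | zero => simp
    | succ m ih =>
      have := Ti_congr F (hc (m + 1)) (hc m) ih
      rwa [← Function.iterate_succ_apply' (Ti F), ← Function.iterate_succ_apply' (Ti F)] at this
  have hd' : ∀ m j : ℕ, (X : R⟦X⟧) ^ m ∣ (Ti F)^[m + j] 0 - (Ti F)^[m] 0 := by
    intro m j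
    induction j with
    | zero => simp
    | succ j ih =>
      have h1 := (pow_dvd_pow (X : R⟦X⟧) (Nat.le_add_right m j)).trans (hd (m + j))
      have := dvd_add h1 ih
      rwa [sub_add_sub_cancel] at this
  refine ⟨PowerSeries.mk fun e => coeff e ((Ti F)^[e + 1] 0), ?_, ?_⟩
  · rw [← PowerSeries.coeff_zero_eq_constantCoeff_apply, PowerSeries.coeff_mk,
      PowerSeries.coeff_zero_eq_constantCoeff_apply]
    exact hc 1
  · set i : R⟦X⟧ := PowerSeries.mk fun e => coeff e ((Ti F)^[e + 1] 0) with hi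
    have hi0 : constantCoeff i = 0 := by
      rw [hi, ← PowerSeries.coeff_zero_eq_constantCoeff_apply, PowerSeries.coeff_mk,
        PowerSeries.coeff_zero_eq_constantCoeff_apply]
      exact hc 1
    have key : ∀ m : ℕ, (X : R⟦X⟧) ^ m ∣ i - (Ti F)^[m] 0 := by
      intro m
      rw [PowerSeries.X_pow_dvd_iff]
      intro e he
      have h1 := PowerSeries.X_pow_dvd_iff.1 (hd' (e + 1) (m - (e + 1))) e (by omega)
      rw [show e + 1 + (m - (e + 1)) = m by omega] at h1
      rw [map_sub, hi, PowerSeries.coeff_mk, sub_eq_zero]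
      rw [map_sub, sub_eq_zero] at h1
      exact h1.symm
    have h2 : ∀ m : ℕ, (X : R⟦X⟧) ^ m ∣ i - Ti F i := by
      intro m
      have h3 := Ti_congr F hi0 (hc m) (key m)
      rw [← Function.iterate_succ_apply' (Ti F)] at h3
      have h4 := key (m + 1)
      have h5 := dvd_sub h4 h3
      rw [sub_sub_sub_cancel_right] at h5
      exact (pow_dvd_pow _ (Nat.le_succ m)).trans h5
    have h6 : i - Ti F i = 0 := by
      ext e
      rw [map_zero]
      exact PowerSeries.X_pow_dvd_iff.1 (h2 (e + 1)) e (Nat.lt_succ_self e)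
    rw [Ti, sub_sub_cancel] at h6
    exact h6

end Pool.Agent.H22.CG
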