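import Pool.Agent.H22.CG.Neg

/-!
# CH-ALL, chapter GROWTH, module G1 (helper22): the ring `End F`

`EndF F` is the set of endomorphisms of the formal group law `F` over a commutative ring `R`; for
commutative `F` it is a ring (`f * g` is the composite `f ∘ g`), functorial in `R`.
-/

open PowerSeries

namespace Pool.Agent.H22.CG

open Pool.Agent.H13.CA

variable {R S : Type*} [CommRing R] [CommRing S]

/-- the formal sum `F (a, b)` -/
noncomputable def pl (F : FormalGroup R) {σ : Type*} (a b : MvPowerSeries σ R) :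
    MvPowerSeries σ R :=
  MvPowerSeries.subst ![a, b] F.toPowerSeries

/-- endomorphisms of a formal group law -/
@[ext] structure EndF (F : FormalGroup R) where
  /-- the underlying series -/
  s : R⟦X⟧
  hom : IsHom F F s

theorem EndF.hs {F : FormalGroup R} (f : EndF F) : PowerSeries.HasSubst f.s := hs_zero f.hom.1

theorem EndF.cc {F : FormalGroup R} (f : EndF F) : constantCoeff f.s = 0 := f.hom.1

instance (F : FormalGroup R) [hF : F.IsComm] (φ : R →+* S) : (F.map φ).IsComm := IsComm.map' hF φ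

section pl

variable (F : FormalGroup R) {σ : Type*} {a b c d : MvPowerSeries σ R}

theorem pl_hs (ha : PowerSeries.HasSubst a) (hb : PowerSeries.HasSubst b) :
    PowerSeries.HasSubst (pl F a b) := hs_F_subst F ha hb

theorem pl_cc {a b : R⟦X⟧} (ha : constantCoeff a = 0) (hb : constantCoeff b = 0) :
    constantCoeff (pl F (σ := Unit) a b : R⟦X⟧) = 0 := cc_F_subst F ha hb

theorem pl_assoc (ha : PowerSeries.HasSubst a) (hb : PowerSeries.HasSubst b)
    (hc : PowerSeries.HasSubst c) : pl F (pl F a b) c = pl F a (pl F b c) := F.assoc' ha hb hc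

theorem pl_zero (ha : PowerSeries.HasSubst a) : pl F a 0 = a := F.add_zero ha

theorem zero_pl (ha : PowerSeries.HasSubst a) : pl F 0 a = a := F.zero_add ha

theorem pl_comm [F.IsComm] (ha : PowerSeries.HasSubst a) (hb : PowerSeries.HasSubst b) :
    pl F a b = pl F b a := F.comm' ha hb

theorem pl_pl_pl [F.IsComm] (ha : PowerSeries.HasSubst a) (hb : PowerSeries.HasSubst b)
    (hc : PowerSeries.HasSubst c) (hd : PowerSeries.HasSubst d) :
    pl F (pl F a b) (pl F c d) = pl F (pl F a c) (pl F b d) := by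
  rw [pl_assoc F ha hb (pl_hs F hc hd), ← pl_assoc F hb hc hd, pl_comm F hb hc,
    pl_assoc F hc hb hd, ← pl_assoc F ha hc (pl_hs F hb hd)]

theorem eq_of_pl [F.IsComm] (ha : PowerSeries.HasSubst a) (hb : PowerSeries.HasSubst b)
    (hc : PowerSeries.HasSubst c) (h1 : pl F a b = 0) (h2 : pl F a c = 0) : b = c := by
  calc b = pl F 0 b := (zero_pl F hb).symm
    _ = pl F (pl F a c) b := by rw [h2]
    _ = pl F (pl F c a) b := by rw [pl_comm F ha hc]
    _ = pl F c (pl F a b) := pl_assoc F hc ha hb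
    _ = c := by rw [h1, pl_zero F hc]

theorem map_pl (ha : PowerSeries.HasSubst a) (hb : PowerSeries.HasSubst b) (φ : R →+* S) :
    MvPowerSeries.map φ (pl F a b) =
      pl (F.map φ) (MvPowerSeries.map φ a) (MvPowerSeries.map φ b) := map_pair ha hb φ _

end pl

/-- the series `[-1]_F` -/
noncomputable def negS (F : FormalGroup R) : R⟦X⟧ := (exists_neg F).choose

theorem negS_cc (F : FormalGroup R) : constantCoeff (negS F) = 0 := (exists_neg F).choose_spec.1

theorem pl_negS (F : FormalGroup R) : pl F (σ := Unit) (X : R⟦X⟧) (negS F) = 0 :=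
  (exists_neg F).choose_spec.2

theorem pl_negS_subst (F : FormalGroup R) {σ : Type*} {a : MvPowerSeries σ R}
    (ha : PowerSeries.HasSubst a) : pl F a (PowerSeries.subst a (negS F)) = 0 := by
  have h := congrArg (PowerSeries.subst a) (pl_negS F)
  rw [pl, subst_pair (hs_zero (f := (X : R⟦X⟧)) (by simp)) (hs_zero (negS_cc F)) ha,
    PowerSeries.subst_X ha] at h
  have h0 : PowerSeries.subst a (0 : R⟦X⟧) = (0 : MvPowerSeries σ R) := by
    rw [← PowerSeries.coe_substAlgHom ha, map_zero]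
  rw [pl, h]
  exact h0

variable (F : FormalGroup R) [F.IsComm]

theorem isHom_negS : IsHom F F (negS F) := by
  refine ⟨negS_cc F, ?_⟩
  have x0 : PowerSeries.HasSubst (MvPowerSeries.X 0 : MvPowerSeries (Fin 2) R) :=
    PowerSeries.HasSubst.X 0
  have x1 : PowerSeries.HasSubst (MvPowerSeries.X 1 : MvPowerSeries (Fin 2) R) :=
    PowerSeries.HasSubst.X 1
  have hF := hs_F F
  have h1 := pl_negS_subst F hF
  have n0 := hs_subst x0 (negS_cc F)
  have n1 := hs_subst x1 (negS_cc F)
  have hFX : pl F (MvPowerSeries.X 0 : MvPowerSeries (Fin 2) R) (MvPowerSeries.X 1) =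
      F.toPowerSeries := by
    rw [pl, pair_X, MvPowerSeries.subst_self]; rfl
  have h2 : pl F F.toPowerSeries
      (pl F (PowerSeries.subst (MvPowerSeries.X 0 : MvPowerSeries (Fin 2) R) (negS F))
        (PowerSeries.subst (MvPowerSeries.X 1 : MvPowerSeries (Fin 2) R) (negS F))) = 0 := by
    conv_lhs => rw [← hFX]
    rw [pl_pl_pl F x0 x1 n0 n1, pl_negS_subst F x0, pl_negS_subst F x1,
      pl_zero F PowerSeries.HasSubst.zero]
  exact eq_of_pl F hF (hs_subst hF (negS_cc F)) (pl_hs F n0 n1) h1 h2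

theorem isHom_add {f g : R⟦X⟧} (hf : IsHom F F f) (hg : IsHom F F g) :
    IsHom F F (pl F (σ := Unit) f g) := by
  refine ⟨pl_cc F hf.1 hg.1, ?_⟩
  have x0 : PowerSeries.HasSubst (MvPowerSeries.X 0 : MvPowerSeries (Fin 2) R) :=
    PowerSeries.HasSubst.X 0
  have x1 : PowerSeries.HasSubst (MvPowerSeries.X 1 : MvPowerSeries (Fin 2) R) :=
    PowerSeries.HasSubst.X 1
  have hF := hs_F F
  rw [pl, subst_pair (hs_zero hf.1) (hs_zero hg.1) hF, subst_pair (hs_zero hf.1) (hs_zero hg.1) x0,
    subst_pair (hs_zero hf.1) (hs_zero hg.1) x1, hf.2, hg.2]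
  exact pl_pl_pl F (hs_subst x0 hf.1) (hs_subst x1 hf.1) (hs_subst x0 hg.1) (hs_subst x1 hg.1)

theorem isHom_zero (F G : FormalGroup R) : IsHom F G (0 : R⟦X⟧) := by
  refine ⟨map_zero _, ?_⟩
  have h0 : ∀ {a : MvPowerSeries (Fin 2) R}, PowerSeries.HasSubst a →
      PowerSeries.subst a (0 : R⟦X⟧) = (0 : MvPowerSeries (Fin 2) R) := by
    intro a ha
    rw [← PowerSeries.coe_substAlgHom ha, map_zero]
  rw [h0 (hs_F F), h0 (PowerSeries.HasSubst.X 0), h0 (PowerSeries.HasSubst.X 1)]
  exact (pl_zero G PowerSeries.HasSubst.zero).symm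

noncomputable instance : Zero (EndF F) := ⟨⟨0, isHom_zero F F⟩⟩

noncomputable instance : One (EndF F) := ⟨⟨X, IsHom.refl F⟩⟩

noncomputable instance : Add (EndF F) :=
  ⟨fun f g => ⟨pl F (σ := Unit) f.s g.s, isHom_add F f.hom g.hom⟩⟩

noncomputable instance : Neg (EndF F) :=
  ⟨fun f => ⟨PowerSeries.subst f.s (negS F), IsHom.comp f.hom (isHom_negS F)⟩⟩

noncomputable instance : Mul (EndF F) :=
  ⟨fun f g => ⟨PowerSeries.subst g.s f.s, IsHom.comp g.hom f.hom⟩⟩

noncomputable instance : Ring (EndF F) where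
  add_assoc f g h := EndF.ext (pl_assoc F f.hs g.hs h.hs)
  zero_add f := EndF.ext (zero_pl F f.hs)
  add_zero f := EndF.ext (pl_zero F f.hs)
  add_comm f g := EndF.ext (pl_comm F f.hs g.hs)
  neg_add_cancel f := EndF.ext ((pl_comm F (hs_subst f.hs (negS_cc F)) f.hs).trans
    (pl_negS_subst F f.hs))
  mul_assoc f g h := EndF.ext (subst_subst' g.hom.1 h.hom.1 f.s)
  one_mul f := EndF.ext (PowerSeries.subst_X f.hs)
  mul_one f := EndF.ext (PowerSeries.X_subst f.s)
  left_distrib f g h := EndF.ext (f.hom.eval g.hs h.hs)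
  right_distrib f g h := EndF.ext (subst_pair f.hs g.hs h.hs _)
  zero_mul f := EndF.ext (by
    show PowerSeries.subst f.s (0 : R⟦X⟧) = (0 : R⟦X⟧)
    rw [← PowerSeries.coe_substAlgHom f.hs, map_zero])
  mul_zero f := EndF.ext (PowerSeries.subst_zero_of_constantCoeff_zero f.hom.1)
  nsmul := nsmulRec
  zsmul := zsmulRec

theorem EndF.zero_s : (0 : EndF F).s = 0 := rfl

theorem EndF.one_s : (1 : EndF F).s = X := rfl

theorem EndF.add_s (f g : EndF F) : (f + g).s = pl F (σ := Unit) f.s g.s := rfl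

theorem EndF.neg_s (f : EndF F) : (-f).s = PowerSeries.subst f.s (negS F) := rfl

theorem EndF.mul_s (f g : EndF F) : (f * g).s = PowerSeries.subst g.s f.s := rfl

theorem EndF.natCast_s (n : ℕ) : (n : EndF F).s = mulSer F n := by
  induction n with
  | zero => rw [Nat.cast_zero]; rfl
  | succ n ih => rw [Nat.cast_succ, EndF.add_s, ih]; rfl

/-- base change -/
noncomputable def EndF.map (φ : R →+* S) : EndF F →+* EndF (F.map φ) where
  toFun f := ⟨PowerSeries.map φ f.s, f.hom.map φ⟩
  map_one' := EndF.ext (PowerSeries.map_X φ)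
  map_mul' f g := EndF.ext (map_subst' g.hs φ f.s)
  map_zero' := EndF.ext (map_zero _)
  map_add' f g := EndF.ext (map_pair f.hs g.hs φ _)

theorem EndF.map_s (φ : R →+* S) (f : EndF F) : (EndF.map F φ f).s = PowerSeries.map φ f.s := rfl

end Pool.Agent.H22.CG
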